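import Mathlib

/-!
# Double sums over sets: removal of coefficients, signs, translates

* `sum_norm_le`, `bil_le`: bounded coefficients cost a constant against sums over subsets;
* `exists_signs_sqrt`: signs with `∑ w_n |∑_j ε_j z_{j,n}| ≥ (5/9) √K ∑ w_n` (`|z_{j,n}| = 1`);
* `exists_shifts`: pairwise disjoint translates of a finite set of integers;
* `l1_bound`: for a multiplicative kernel a bound `β` for all double sums over sets with at most `N`
  integers implies `∑_n |∑_{t ∈ W} e(n,t)| ≤ 84 β (|W| / N)^(1/2)` for all smaller sets.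
-/

set_option autoImplicit false

open Finset

namespace Pool.Agent.Q239.LV

/-- a finite sum of absolute values is at most four times the largest partial sum -/
lemma sum_norm_le {ι : Type*} (s : Finset ι) (z : ι → ℂ) (B : ℝ)
    (h : ∀ A ⊆ s, ‖∑ i ∈ A, z i‖ ≤ B) : ∑ i ∈ s, ‖z i‖ ≤ 4 * B := by
  classical
  have key : ∀ g : ℂ → ℝ, (∀ A : Finset ι, g (∑ i ∈ A, z i) = ∑ i ∈ A, g (z i)) →
      (∀ x, |g x| ≤ ‖x‖) → ∑ i ∈ s, |g (z i)| ≤ 2 * B := by
    intro g hg hg'
    have h1 : ∑ i ∈ s, |g (z i)| = g (∑ i ∈ s.filter (fun i => 0 ≤ g (z i)), z i) -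
        g (∑ i ∈ s.filter (fun i => ¬ 0 ≤ g (z i)), z i) := by
      rw [← Finset.sum_filter_add_sum_filter_not s (fun i => 0 ≤ g (z i)), hg, hg]
      have e1 : ∑ i ∈ s.filter (fun i => 0 ≤ g (z i)), |g (z i)| =
          ∑ i ∈ s.filter (fun i => 0 ≤ g (z i)), g (z i) :=
        Finset.sum_congr rfl fun i hi => abs_of_nonneg (Finset.mem_filter.1 hi).2
      have e2 : ∑ i ∈ s.filter (fun i => ¬ 0 ≤ g (z i)), |g (z i)| =
          ∑ i ∈ s.filter (fun i => ¬ 0 ≤ g (z i)), -g (z i) :=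
        Finset.sum_congr rfl fun i hi => abs_of_neg (not_le.1 (Finset.mem_filter.1 hi).2)
      rw [e1, e2, Finset.sum_neg_distrib]
      ring
    have h2 := (hg' _).trans (h _ (Finset.filter_subset (fun i => 0 ≤ g (z i)) s))
    have h3 := (hg' _).trans (h _ (Finset.filter_subset (fun i => ¬ 0 ≤ g (z i)) s))
    rw [abs_le] at h2 h3
    rw [h1]
    linarith [h2.2, h3.1]
  have hre := key Complex.re (fun A => Complex.re_sum A z) Complex.abs_re_le_norm
  have him := key Complex.im (fun A => Complex.im_sum A z) Complex.abs_im_le_norm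
  calc ∑ i ∈ s, ‖z i‖ ≤ ∑ i ∈ s, (|(z i).re| + |(z i).im|) :=
        Finset.sum_le_sum fun i _ => Complex.norm_le_abs_re_add_abs_im _
    _ = ∑ i ∈ s, |(z i).re| + ∑ i ∈ s, |(z i).im| := Finset.sum_add_distrib
    _ ≤ 4 * B := by linarith

/-- removal of the coefficients in a double sum -/
lemma bil_le {ι κ : Type*} (s : Finset ι) (W : Finset κ) (e : ι → κ → ℂ) (β : ℝ)
    (h : ∀ A ⊆ s, ∀ W' ⊆ W, ‖∑ n ∈ A, ∑ t ∈ W', e n t‖ ≤ β) (u : κ → ℂ)
    (hu : ∀ t, ‖u t‖ ≤ 1) : ∑ n ∈ s, ‖∑ t ∈ W, u t * e n t‖ ≤ 16 * β := by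
  have h1 := sum_norm_le s (fun n => ∑ t ∈ W, u t * e n t) (4 * β) ?_
  · linarith
  intro A hA
  rw [Finset.sum_comm]
  simp_rw [← Finset.mul_sum]
  calc ‖∑ t ∈ W, u t * ∑ n ∈ A, e n t‖ ≤ ∑ t ∈ W, ‖u t * ∑ n ∈ A, e n t‖ := norm_sum_le _ _
    _ ≤ ∑ t ∈ W, ‖∑ n ∈ A, e n t‖ := Finset.sum_le_sum fun t _ => by
        rw [norm_mul]
        exact mul_le_of_le_one_left (norm_nonneg _) (hu t)
    _ ≤ 4 * β := sum_norm_le W _ β fun W' hW' => by
        rw [Finset.sum_comm]
        exact h A hA W' hW'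

/-- the potential function for the choice of the signs -/
noncomputable def Phi (α γ : ℝ) (m : ℕ) (x : ℂ) : ℝ :=
  α * (Complex.normSq x + m) - γ * ((Complex.normSq x) ^ 2 + 6 * m * Complex.normSq x + 3 * m ^ 2)

lemma Phi_step (α γ : ℝ) (hγ : 0 ≤ γ) (m : ℕ) (x z : ℂ) (hz : Complex.normSq z = 1) :
    2 * Phi α γ (m + 1) x ≤ Phi α γ m (x + z) + Phi α γ m (x - z) := by
  have h1 : Complex.normSq (x + z) = Complex.normSq x + 1 +
      2 * (x * (starRingEnd ℂ) z).re := by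
    rw [Complex.normSq_add, hz]
  have h2 : Complex.normSq (x - z) = Complex.normSq x + 1 -
      2 * (x * (starRingEnd ℂ) z).re := by
    rw [Complex.normSq_sub, hz]
  have h3 : (x * (starRingEnd ℂ) z).re ^ 2 ≤ Complex.normSq x := by
    have h4 : Complex.normSq (x * (starRingEnd ℂ) z) = Complex.normSq x := by
      rw [Complex.normSq_mul, Complex.normSq_conj, hz, mul_one]
    rw [← h4, Complex.normSq_apply]
    nlinarith [mul_self_nonneg (x * (starRingEnd ℂ) z).im]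
  unfold Phi
  rw [h1, h2]
  set P := Complex.normSq x
  set Q := (x * (starRingEnd ℂ) z).re
  push_cast
  have h5 : 0 ≤ γ * (8 * P - 8 * Q ^ 2 + 4) := mul_nonneg hγ (by linarith)
  nlinarith [h5]

lemma exists_signs {ι : Type*} (s : Finset ι) (w : ι → ℝ) (hw : ∀ n ∈ s, 0 ≤ w n) (α γ : ℝ)
    (hγ : 0 ≤ γ) (z : ℕ → ι → ℂ) (hz : ∀ j, ∀ n ∈ s, Complex.normSq (z j n) = 1) (m : ℕ) :
    ∀ x : ι → ℂ, ∃ ε : ℕ → ℝ, (∀ j, |ε j| = 1) ∧
      ∑ n ∈ s, w n * Phi α γ m (x n) ≤
        ∑ n ∈ s, w n * Phi α γ 0 (x n + ∑ j ∈ range m, (ε j : ℂ) * z j n) := by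
  induction m with
  | zero =>
    intro x
    exact ⟨fun _ => 1, fun _ => abs_one, by simp⟩
  | succ m ih =>
    intro x
    obtain ⟨σ, hσ, h1⟩ : ∃ σ : ℝ, |σ| = 1 ∧ ∑ n ∈ s, w n * Phi α γ (m + 1) (x n) ≤
        ∑ n ∈ s, w n * Phi α γ m (x n + (σ : ℂ) * z m n) := by
      by_contra hcon
      push Not at hcon
      have h2 := hcon 1 abs_one
      have h3 := hcon (-1) (by norm_num)
      have h4 : 2 * ∑ n ∈ s, w n * Phi α γ (m + 1) (x n) ≤
          ∑ n ∈ s, w n * Phi α γ m (x n + ((1 : ℝ) : ℂ) * z m n) +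
          ∑ n ∈ s, w n * Phi α γ m (x n + ((-1 : ℝ) : ℂ) * z m n) := by
        rw [← Finset.sum_add_distrib, Finset.mul_sum]
        refine Finset.sum_le_sum fun n hn => ?_
        have h5 := Phi_step α γ hγ m (x n) (z m n) (hz m n hn)
        have h6 := mul_le_mul_of_nonneg_left h5 (hw n hn)
        have e1 : x n + ((1 : ℝ) : ℂ) * z m n = x n + z m n := by push_cast; ring
        have e2 : x n + ((-1 : ℝ) : ℂ) * z m n = x n - z m n := by push_cast; ring
        rw [e1, e2]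
        linarith
      linarith
    obtain ⟨ε, hε, h2⟩ := ih (fun n => x n + (σ : ℂ) * z m n)
    refine ⟨fun j => if j = m then σ else ε j, fun j => ?_, h1.trans (h2.trans (le_of_eq ?_))⟩
    · dsimp only
      split_ifs
      · exact hσ
      · exact hε j
    · refine Finset.sum_congr rfl fun n _ => ?_
      congr 2
      rw [Finset.sum_range_succ]
      dsimp only
      rw [if_pos rfl]
      have h3 : ∑ j ∈ range m, (((if j = m then σ else ε j : ℝ)) : ℂ) * z j n =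
          ∑ j ∈ range m, (ε j : ℂ) * z j n := by
        refine Finset.sum_congr rfl fun j hj => ?_
        rw [if_neg (Finset.mem_range.1 hj).ne]
      rw [h3]
      ring

/-- signs for which a weighted sum of absolute values of sums of `K` unimodular numbers has the
size `√K` -/
lemma exists_signs_sqrt {ι : Type*} (s : Finset ι) (w : ι → ℝ) (hw : ∀ n ∈ s, 0 ≤ w n) (K : ℕ)
    (hK : 1 ≤ K) (z : ℕ → ι → ℂ) (hz : ∀ j, ∀ n ∈ s, Complex.normSq (z j n) = 1) :
    ∃ ε : ℕ → ℝ, (∀ j, |ε j| = 1) ∧ 5 / 9 * Real.sqrt K * ∑ n ∈ s, w n ≤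
      ∑ n ∈ s, w n * ‖∑ j ∈ range K, (ε j : ℂ) * z j n‖ := by
  have hK0 : (0 : ℝ) < K := by exact_mod_cast hK
  set r := Real.sqrt K with hr
  have hr0 : 0 < r := Real.sqrt_pos.2 hK0
  have hr2 : r ^ 2 = K := Real.sq_sqrt hK0.le
  obtain ⟨ε, hε, h1⟩ := exists_signs s w hw (1 / r) (4 / 27 / r ^ 3) (by positivity) z hz K
    (fun _ => 0)
  refine ⟨ε, hε, ?_⟩
  have h2 : ∀ n ∈ s, w n * Phi (1 / r) (4 / 27 / r ^ 3) K (0 : ℂ) = w n * (5 / 9 * r) := by
    intro n _
    unfold Phi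
    rw [Complex.normSq_zero, ← hr2]
    field_simp
    ring
  have h3 : ∀ y : ℂ, Phi (1 / r) (4 / 27 / r ^ 3) 0 y ≤ ‖y‖ := by
    intro y
    unfold Phi
    rw [Complex.normSq_eq_norm_sq]
    set v := ‖y‖ with hv
    have hv0 : 0 ≤ v := norm_nonneg y
    have h4 : (1 / r) * (v ^ 2 + ((0 : ℕ) : ℝ)) - (4 / 27 / r ^ 3) *
        ((v ^ 2) ^ 2 + 6 * ((0 : ℕ) : ℝ) * v ^ 2 + 3 * ((0 : ℕ) : ℝ) ^ 2) =
        v - v * (1 - 2 * (v / (3 * r))) ^ 2 * (1 + v / (3 * r)) := by
      push_cast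
      field_simp
      ring
    rw [h4]
    have h5 : 0 ≤ v * (1 - 2 * (v / (3 * r))) ^ 2 * (1 + v / (3 * r)) := by positivity
    linarith
  calc 5 / 9 * r * ∑ n ∈ s, w n = ∑ n ∈ s, w n * Phi (1 / r) (4 / 27 / r ^ 3) K (0 : ℂ) := by
        rw [Finset.sum_congr rfl h2, ← Finset.sum_mul]
        ring
    _ ≤ _ := h1
    _ ≤ _ := Finset.sum_le_sum fun n hn => by
        rw [zero_add]
        exact mul_le_mul_of_nonneg_left (h3 _) (hw n hn)

/-- disjoint translates of a finite set of integers -/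
lemma exists_shifts (W : Finset ℤ) (M : ℕ) (hM : 0 < M) (K : ℕ) (h : K * W.card ^ 2 ≤ M) :
    ∃ S : ℕ → ℤ, (∀ j, 0 ≤ S j ∧ S j < M) ∧
      ∀ i < K, ∀ j < K, i ≠ j → ∀ a ∈ W, ∀ b ∈ W, a + S i ≠ b + S j := by
  classical
  induction K with
  | zero =>
    have hM' : (0 : ℤ) < M := by exact_mod_cast hM
    exact ⟨fun _ => 0, fun _ => ⟨le_rfl, hM'⟩, fun i hi => absurd hi (by omega)⟩
  | succ K ih =>
    obtain ⟨S, hS, h1⟩ := ih (le_trans (Nat.mul_le_mul_right _ (by omega)) h)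
    by_cases hW : W.card = 0
    · rw [Finset.card_eq_zero] at hW
      subst hW
      exact ⟨S, hS, fun i _ j _ _ a ha => absurd ha (Finset.notMem_empty a)⟩
    · set F : Finset ℤ := ((range K) ×ˢ (W ×ˢ W)).image (fun p => S p.1 + p.2.1 - p.2.2) with hF
      have hcard : F.card ≤ K * W.card ^ 2 := by
        refine Finset.card_image_le.trans (le_of_eq ?_)
        rw [Finset.card_product, Finset.card_product, Finset.card_range]
        ring
      have hlt : F.card < (Finset.Ico (0 : ℤ) M).card := by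
        rw [Int.card_Ico, sub_zero, Int.toNat_natCast]
        have : 0 < W.card ^ 2 := by positivity
        nlinarith
      obtain ⟨x, hx, hxF⟩ : ∃ x ∈ Finset.Ico (0 : ℤ) M, x ∉ F := by
        by_contra hcon
        push Not at hcon
        exact absurd (Finset.card_le_card (show Finset.Ico (0 : ℤ) M ⊆ F from hcon)) (by omega)
      rw [Finset.mem_Ico] at hx
      refine ⟨fun j => if j = K then x else S j, fun j => ?_, ?_⟩
      · dsimp only
        split_ifs
        · exact hx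
        · exact hS j
      · have h2 : ∀ i < K, ∀ a ∈ W, ∀ b ∈ W, a + S i ≠ b + x := by
          intro i hi a ha b hb heq
          apply hxF
          rw [hF, Finset.mem_image]
          refine ⟨(i, a, b), ?_, ?_⟩
          · simp only [Finset.mem_product, Finset.mem_range]
            exact ⟨hi, ha, hb⟩
          · dsimp only
            linarith
        intro i hi j hj hij a ha b hb
        dsimp only
        split_ifs with hi' hj' hj'
        · omega
        · intro heq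
          exact h2 j (by omega) b hb a ha heq.symm
        · exact h2 i (by omega) a ha b hb
        · exact h1 i (by omega) j (by omega) hij a ha b hb

/-- amplification: from sets with at most `N` elements to smaller sets -/
lemma amplify {ι : Type*} (s : Finset ι) (e : ι → ℤ → ℂ)
    (he : ∀ n a b, e n (a + b) = e n a * e n b) (hn : ∀ n a, Complex.normSq (e n a) = 1)
    (L M N : ℕ) (β : ℝ)
    (h : ∀ A ⊆ s, ∀ W : Finset ℤ, (∀ t ∈ W, 0 ≤ t ∧ t < L + M) → W.card ≤ N →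
      ‖∑ n ∈ A, ∑ t ∈ W, e n t‖ ≤ β)
    (W : Finset ℤ) (hW : ∀ t ∈ W, 0 ≤ t ∧ t < L) (hR1 : 1 ≤ W.card) (hR : W.card ≤ N)
    (hM : N * W.card ≤ M) :
    ∑ n ∈ s, ‖∑ t ∈ W, e n t‖ ≤ 42 * β * Real.sqrt (W.card / N) := by
  classical
  set R := W.card with hRdef
  set K := N / R with hKdef
  have hK1 : 1 ≤ K := (Nat.one_le_div_iff (by omega)).2 hR
  have hKR : K * R ≤ N := Nat.div_mul_le_self N R
  have hKR2 : N < (K + 1) * R := by
    rw [hKdef]
    have := Nat.lt_div_mul_add (a := N) (b := R) (by omega)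
    linarith [this, Nat.add_mul (N / R) 1 R]
  have hβ : 0 ≤ β := by
    have := h ∅ (Finset.empty_subset _) ∅ (by simp) (by simp)
    simpa using this
  obtain ⟨S, hS, hdis⟩ := exists_shifts W M (by nlinarith) K (by
    rw [← hRdef]
    calc K * R ^ 2 = (K * R) * R := by ring
      _ ≤ N * R := Nat.mul_le_mul_right _ hKR
      _ ≤ M := hM)
  have hinj : Set.InjOn (fun p : ℕ × ℤ => p.2 + S p.1) (((range K) ×ˢ W : Finset (ℕ × ℤ)) : Set (ℕ × ℤ)) := by
    intro p hp q hq hpq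
    rw [Finset.mem_coe, Finset.mem_product, Finset.mem_range] at hp hq
    dsimp only at hpq
    by_cases hpq1 : p.1 = q.1
    · rw [hpq1] at hpq
      exact Prod.ext hpq1 (by linarith)
    · exact absurd hpq (hdis _ hp.1 _ hq.1 hpq1 _ hp.2 _ hq.2)
  set w : ι → ℝ := fun n => ‖∑ t ∈ W, e n t‖ with hw
  obtain ⟨ε, hε, h1⟩ := exists_signs_sqrt s w (fun n _ => norm_nonneg _) K hK1
    (fun j n => e n (S j)) (fun j n _ => hn n (S j))
  have h2 := bil_le s ((range K) ×ˢ W) (fun n p => e n (p.2 + S p.1)) β (by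
    intro A hA P hP
    have h3 := h A hA (P.image (fun p : ℕ × ℤ => p.2 + S p.1)) (by
      intro t ht
      rw [Finset.mem_image] at ht
      obtain ⟨p, hp, rfl⟩ := ht
      have hp' := hP hp
      rw [Finset.mem_product] at hp'
      have a1 := hW _ hp'.2
      have a2 := hS p.1
      constructor <;> [linarith [a1.1, a2.1]; linarith [a1.2, a2.2]]) (by
      refine Finset.card_image_le.trans ((Finset.card_le_card hP).trans ?_)
      rw [Finset.card_product, Finset.card_range]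
      exact hKR)
    have h4 : ∀ n, ∑ t ∈ P.image (fun p : ℕ × ℤ => p.2 + S p.1), e n t =
        ∑ p ∈ P, e n (p.2 + S p.1) := fun n =>
      Finset.sum_image fun p hp q hq hpq => hinj (hP hp) (hP hq) hpq
    simp_rw [h4] at h3
    exact h3) (fun p => (ε p.1 : ℂ)) (fun p => by
      rw [Complex.norm_real, Real.norm_eq_abs, hε])
  have h5 : ∀ n, ‖∑ p ∈ (range K) ×ˢ W, (ε p.1 : ℂ) * e n (p.2 + S p.1)‖ =
      w n * ‖∑ j ∈ range K, (ε j : ℂ) * e n (S j)‖ := by
    intro n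
    rw [hw]
    dsimp only
    rw [← norm_mul, Finset.sum_product, Finset.sum_mul_sum, Finset.sum_comm]
    congr 1
    refine Finset.sum_congr rfl fun t _ => Finset.sum_congr rfl fun j _ => ?_
    rw [he]
    ring
  simp_rw [h5] at h2
  have h6 : 5 / 9 * Real.sqrt K * ∑ n ∈ s, w n ≤ 16 * β := h1.trans h2
  have hN0 : (0 : ℝ) < N := by
    have : 1 ≤ N := hR1.trans hR
    exact_mod_cast this
  have hR0 : (0 : ℝ) < R := by exact_mod_cast hR1
  set q := Real.sqrt ((R : ℝ) / N) with hq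
  have hq0 : 0 ≤ q := Real.sqrt_nonneg _
  have h7 : 7 / 10 ≤ Real.sqrt K * q := by
    rw [hq, ← Real.sqrt_mul (by positivity)]
    apply Real.le_sqrt_of_sq_le
    rw [← mul_div_assoc, le_div_iff₀ hN0]
    have h8 : (N : ℝ) ≤ 2 * (K * R) := by
      have : N ≤ 2 * (K * R) := by nlinarith
      exact_mod_cast this
    nlinarith
  have hw0 : 0 ≤ ∑ n ∈ s, w n := Finset.sum_nonneg fun n _ => norm_nonneg _
  have h9 : 5 / 9 * (Real.sqrt K * q) * ∑ n ∈ s, w n ≤ 16 * β * q := by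
    calc 5 / 9 * (Real.sqrt K * q) * ∑ n ∈ s, w n = (5 / 9 * Real.sqrt K * ∑ n ∈ s, w n) * q := by
          ring
      _ ≤ _ := mul_le_mul_of_nonneg_right h6 hq0
  have h10 : 5 / 9 * (7 / 10) * ∑ n ∈ s, w n ≤ 5 / 9 * (Real.sqrt K * q) * ∑ n ∈ s, w n :=
    mul_le_mul_of_nonneg_right (by linarith) hw0
  have h11 : 0 ≤ β * q := mul_nonneg hβ hq0
  linarith

/-- the `ℓ¹` bound with the square root of the number of points from the bound for the largest
sets -/
theorem l1_bound {ι : Type*} (s : Finset ι) (e : ι → ℤ → ℂ)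
    (he : ∀ n a b, e n (a + b) = e n a * e n b) (hn : ∀ n a, Complex.normSq (e n a) = 1)
    (N B : ℕ) (hN : 1 ≤ N) (hB : N ^ 2 ≤ B) (β : ℝ)
    (h : ∀ A ⊆ s, ∀ W : Finset ℤ, (∀ t ∈ W, 0 ≤ t ∧ t ≤ B) → W.card ≤ N →
      ‖∑ n ∈ A, ∑ t ∈ W, e n t‖ ≤ β)
    (W : Finset ℤ) (hW : ∀ t ∈ W, 0 ≤ t ∧ t ≤ B) (hR : W.card ≤ N) :
    ∑ n ∈ s, ‖∑ t ∈ W, e n t‖ ≤ 84 * β * Real.sqrt (W.card / N) := by
  classical
  have hβ : 0 ≤ β := by
    have := h ∅ (Finset.empty_subset _) ∅ (by simp) (by simp)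
    simpa using this
  have hN0 : (0 : ℝ) < N := by exact_mod_cast hN
  by_cases h4 : N < 4 * W.card
  · have h1 := sum_norm_le s (fun n => ∑ t ∈ W, e n t) β (fun A hA => h A hA W hW hR)
    have h2 : 1 / 2 ≤ Real.sqrt (W.card / N) := by
      apply Real.le_sqrt_of_sq_le
      rw [le_div_iff₀ hN0]
      have : (N : ℝ) < 4 * W.card := by exact_mod_cast h4
      nlinarith
    nlinarith [mul_le_mul_of_nonneg_left h2 hβ]
  · set L := B / 2 + 1 with hL
    set M := B - B / 2 with hMdef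
    have hLM : L + M = B + 1 := by omega
    have hh : ∀ A ⊆ s, ∀ W : Finset ℤ, (∀ t ∈ W, 0 ≤ t ∧ t < L + M) → W.card ≤ N →
        ‖∑ n ∈ A, ∑ t ∈ W, e n t‖ ≤ β := by
      intro A hA W' hW' hc
      refine h A hA W' (fun t ht => ⟨(hW' t ht).1, ?_⟩) hc
      have h5 := (hW' t ht).2
      have h6 : ((L : ℤ) + M) = B + 1 := by exact_mod_cast hLM
      linarith
    have key : ∀ W' : Finset ℤ, (∀ t ∈ W', 0 ≤ t ∧ t < L) → W'.card ≤ W.card →
        ∑ n ∈ s, ‖∑ t ∈ W', e n t‖ ≤ 42 * β * Real.sqrt (W.card / N) := by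
      intro W' hW' hc
      by_cases h0 : W'.card = 0
      · rw [Finset.card_eq_zero] at h0
        subst h0
        simp only [Finset.sum_empty, norm_zero, Finset.sum_const_zero]
        positivity
      · have h5 := amplify s e he hn L M N β hh W' hW' (by omega) (by omega) (by
          have h7 : 4 * (N * W'.card) ≤ N ^ 2 := by nlinarith
          omega)
        refine h5.trans (mul_le_mul_of_nonneg_left (Real.sqrt_le_sqrt ?_) (by positivity))
        have : (W'.card : ℝ) ≤ W.card := by exact_mod_cast hc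
        gcongr
    set W1 := W.filter (fun t => t < (L : ℤ)) with hW1
    set W2 := W.filter (fun t => ¬ t < (L : ℤ)) with hW2
    set W3 := W2.image (fun t => t - (L : ℤ)) with hW3
    have k1 := key W1 (fun t ht => by
      rw [hW1, Finset.mem_filter] at ht
      exact ⟨(hW t ht.1).1, ht.2⟩) (Finset.card_le_card (Finset.filter_subset _ _))
    have k3 := key W3 (fun t ht => by
      rw [hW3, Finset.mem_image] at ht
      obtain ⟨x, hx, rfl⟩ := ht
      rw [hW2, Finset.mem_filter] at hx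
      have h5 := (hW x hx.1).2
      have h6 := hx.2
      have h7 : (B : ℤ) + 1 ≤ 2 * L := by
        have : B + 1 ≤ 2 * L := by omega
        exact_mod_cast this
      constructor <;> linarith) (Finset.card_image_le.trans
        (Finset.card_le_card (Finset.filter_subset _ _)))
    have h8 : ∀ n, ‖∑ t ∈ W, e n t‖ ≤ ‖∑ t ∈ W1, e n t‖ + ‖∑ t ∈ W3, e n t‖ := by
      intro n
      have h9 : ∑ t ∈ W2, e n t = e n L * ∑ t ∈ W3, e n t := by
        rw [hW3, Finset.sum_image (fun a _ b _ hab => by simpa using hab), Finset.mul_sum]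
        refine Finset.sum_congr rfl fun t _ => ?_
        rw [← he]
        congr 1
        ring
      have h10 : ‖e n (L : ℤ)‖ = 1 := by
        have := hn n (L : ℤ)
        rw [Complex.normSq_eq_norm_sq] at this
        exact (pow_eq_one_iff_of_nonneg (norm_nonneg _) two_ne_zero).1 this
      calc ‖∑ t ∈ W, e n t‖ = ‖∑ t ∈ W1, e n t + ∑ t ∈ W2, e n t‖ := by
            rw [hW1, hW2, Finset.sum_filter_add_sum_filter_not]
        _ ≤ ‖∑ t ∈ W1, e n t‖ + ‖∑ t ∈ W2, e n t‖ := norm_add_le _ _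
        _ = _ := by rw [h9, norm_mul, h10, one_mul]
    calc ∑ n ∈ s, ‖∑ t ∈ W, e n t‖ ≤ ∑ n ∈ s, (‖∑ t ∈ W1, e n t‖ + ‖∑ t ∈ W3, e n t‖) :=
          Finset.sum_le_sum fun n _ => h8 n
      _ = _ := Finset.sum_add_distrib
      _ ≤ 84 * β * Real.sqrt (W.card / N) := by linarith

/-- bounded coefficients at all points, any index set of the points -/
theorem bil_bound {ι κ : Type*} (s : Finset ι) (e : ι → ℤ → ℂ)
    (he : ∀ n a b, e n (a + b) = e n a * e n b) (hn : ∀ n a, Complex.normSq (e n a) = 1)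
    (N B : ℕ) (hN : 1 ≤ N) (hB : N ^ 2 ≤ B) (β : ℝ)
    (h : ∀ A ⊆ s, ∀ W : Finset ℤ, (∀ t ∈ W, 0 ≤ t ∧ t ≤ B) → W.card ≤ N →
      ‖∑ n ∈ A, ∑ t ∈ W, e n t‖ ≤ β)
    (P : Finset κ) (φ : κ → ℤ) (hφ : Set.InjOn φ P) (hP : ∀ p ∈ P, 0 ≤ φ p ∧ φ p ≤ B)
    (hR : P.card ≤ N) (u : κ → ℂ) (hu : ∀ p, ‖u p‖ ≤ 1) :
    ∑ n ∈ s, ‖∑ p ∈ P, u p * e n (φ p)‖ ≤ 1344 * β * Real.sqrt (P.card / N) := by
  classical
  have hβ : 0 ≤ β := by
    have := h ∅ (Finset.empty_subset _) ∅ (by simp) (by simp)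
    simpa using this
  have h1 := bil_le s P (fun n p => e n (φ p)) (84 * β * Real.sqrt (P.card / N)) (by
    intro A hA P' hP'
    have h2 : ∀ n, ∑ p ∈ P', e n (φ p) = ∑ t ∈ P'.image φ, e n t := fun n =>
      (Finset.sum_image fun p hp q hq hpq => hφ (hP' hp) (hP' hq) hpq).symm
    simp_rw [h2]
    have h3 := l1_bound s e he hn N B hN hB β h (P'.image φ) (by
      intro t ht
      rw [Finset.mem_image] at ht
      obtain ⟨p, hp, rfl⟩ := ht
      exact hP p (hP' hp)) (Finset.card_image_le.trans ((Finset.card_le_card hP').trans hR))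
    calc ‖∑ n ∈ A, ∑ t ∈ P'.image φ, e n t‖ ≤ ∑ n ∈ A, ‖∑ t ∈ P'.image φ, e n t‖ :=
          norm_sum_le _ _
      _ ≤ ∑ n ∈ s, ‖∑ t ∈ P'.image φ, e n t‖ :=
          Finset.sum_le_sum_of_subset_of_nonneg hA fun _ _ _ => norm_nonneg _
      _ ≤ _ := h3
      _ ≤ _ := by
        refine mul_le_mul_of_nonneg_left (Real.sqrt_le_sqrt ?_) (by positivity)
        have h4 : ((P'.image φ).card : ℝ) ≤ P.card := by
          exact_mod_cast Finset.card_image_le.trans (Finset.card_le_card hP')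
        gcongr) u hu
  linarith

/-- the sum of the absolute values of a polynomial with bounded coefficients, as a bilinear form -/
lemma sum_norm_poly_le {ι κ : Type*} (s : Finset ι) (P : Finset κ) (f : ι → κ → ℂ) (Γ : ℝ)
    (h : ∀ u : κ → ℂ, (∀ p, ‖u p‖ ≤ 1) → ‖∑ p ∈ P, u p * ∑ n ∈ s, f n p‖ ≤ Γ) :
    ∑ p ∈ P, ‖∑ n ∈ s, f n p‖ ≤ Γ := by
  have h1 := h (fun p => if (∑ n ∈ s, f n p) = 0 then 0 else
    (‖∑ n ∈ s, f n p‖ : ℂ) / (∑ n ∈ s, f n p)) (by
      intro p
      split_ifs with h0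
      · simp
      · rw [norm_div, Complex.norm_real, norm_norm, div_self (norm_ne_zero_iff.2 h0)])
  have h2 : ∑ p ∈ P, (if (∑ n ∈ s, f n p) = 0 then 0 else
      (‖∑ n ∈ s, f n p‖ : ℂ) / (∑ n ∈ s, f n p)) * ∑ n ∈ s, f n p =
      ((∑ p ∈ P, ‖∑ n ∈ s, f n p‖ : ℝ) : ℂ) := by
    push_cast
    refine Finset.sum_congr rfl fun p _ => ?_
    split_ifs with h0
    · rw [h0]; simp
    · rw [div_mul_cancel₀ _ h0]
  rw [h2, Complex.norm_real, Real.norm_eq_abs] at h1
  exact (le_abs_self _).trans h1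

end Pool.Agent.Q239.LV
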