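import Pool.Agent.Q239.LV.Nik

/-!
# Real points and integer points, without logarithms
-/

set_option autoImplicit false

open Finset

namespace Pool.Agent.Q239.LV

/-- a number is bounded by the thresholds of a grid which it exceeds -/
lemma grid_le (x : ℝ) (g : ℕ → ℝ) (hg : ∀ i, 0 ≤ g i) (K : ℕ) :
    x ≤ g 0 + ∑ i ∈ range K, (if g i < x then g (i + 1) else 0) + (if g K < x then x else 0) := by
  induction K with
  | zero =>
    rw [range_zero, sum_empty, add_zero]
    split_ifs with h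
    · linarith [hg 0]
    · push Not at h; linarith
  | succ K ih =>
    rw [sum_range_succ]
    have h2 := hg (K + 1)
    have h3 : (if g K < x then x else 0) ≤
        (if g K < x then g (K + 1) else 0) + (if g (K + 1) < x then x else 0) := by
      split_ifs with h h' h'
      · linarith
      · push Not at h'; linarith
      · have : (0 : ℝ) ≤ x := by linarith
        linarith
      · simp
    linarith

/-- the sum of the values from the number of the large values -/
lemma sum_le_levels {κ : Type*} (W : Finset κ) (x : κ → ℝ) (X V : ℝ) (hV : 0 < V)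
    (h : ∀ v : ℝ, V ≤ v → ((W.filter (fun t => v < x t)).card : ℝ) * v ^ 2 ≤ X) :
    ∑ t ∈ W, x t ≤ W.card * V + 4 * X / V := by
  have hX : 0 ≤ X := by
    have := h V le_rfl
    have h2 : (0 : ℝ) ≤ ((W.filter (fun t => V < x t)).card : ℝ) * V ^ 2 := by positivity
    linarith
  -- an upper bound of the values
  obtain ⟨K, hK⟩ : ∃ K : ℕ, ∀ t ∈ W, x t ≤ 2 ^ K * V := by
    obtain ⟨K, hK⟩ := exists_nat_gt ((∑ t ∈ W, |x t|) / V)
    refine ⟨K, fun t ht => ?_⟩
    rw [div_lt_iff₀ hV] at hK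
    have h1 : |x t| ≤ ∑ t ∈ W, |x t| :=
      Finset.single_le_sum (f := fun t => |x t|) (fun _ _ => abs_nonneg _) ht
    have h2 : (K : ℝ) ≤ 2 ^ K := by exact_mod_cast (Nat.lt_two_pow_self (n := K)).le
    have h3 := le_abs_self (x t)
    nlinarith
  set g : ℕ → ℝ := fun i => 2 ^ i * V with hg
  have hg0 : ∀ i, 0 ≤ g i := fun i => by rw [hg]; positivity
  have h1 : ∑ t ∈ W, x t ≤ ∑ t ∈ W, (g 0 + ∑ i ∈ range K, (if g i < x t then g (i + 1) else 0) +
      (if g K < x t then x t else 0)) := Finset.sum_le_sum fun t _ => grid_le (x t) g hg0 K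
  have h2 : ∑ t ∈ W, (if g K < x t then x t else 0) = 0 := by
    refine Finset.sum_eq_zero fun t ht => ?_
    rw [if_neg]
    have := hK t ht
    rw [hg]
    dsimp only
    linarith
  have h3 : ∀ i, ∑ t ∈ W, (if g i < x t then g (i + 1) else 0) ≤ 2 * X / V * (1 / 2) ^ i := by
    intro i
    rw [← Finset.sum_filter, Finset.sum_const, nsmul_eq_mul]
    have hgi : 0 < g i := by rw [hg]; positivity
    have h4 := h (g i) (by
      rw [hg]; dsimp only
      have : (1 : ℝ) ≤ 2 ^ i := one_le_pow₀ (by norm_num)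
      nlinarith)
    have h5 : ((W.filter (fun t => g i < x t)).card : ℝ) * g i ≤ X / g i := by
      rw [le_div_iff₀ hgi]
      calc _ = ((W.filter (fun t => g i < x t)).card : ℝ) * g i ^ 2 := by ring
        _ ≤ X := h4
    calc ((W.filter (fun t => g i < x t)).card : ℝ) * g (i + 1) =
          2 * (((W.filter (fun t => g i < x t)).card : ℝ) * g i) := by
          rw [hg]; dsimp only; rw [pow_succ]; ring
      _ ≤ 2 * (X / g i) := by linarith
      _ = 2 * X / V * (1 / 2) ^ i := by
          rw [hg]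
          dsimp only
          rw [one_div, inv_pow]
          field_simp
  rw [Finset.sum_add_distrib, Finset.sum_add_distrib, Finset.sum_comm, h2, add_zero,
    Finset.sum_const, nsmul_eq_mul] at h1
  have h4 : ∑ i ∈ range K, ∑ t ∈ W, (if g i < x t then g (i + 1) else 0) ≤
      ∑ i ∈ range K, 2 * X / V * (1 / 2) ^ i := Finset.sum_le_sum fun i _ => h3 i
  have h5 : ∑ i ∈ range K, ((1 : ℝ) / 2) ^ i ≤ 2 := by
    have := sum_geometric_two_le K
    simpa using this
  rw [← Finset.mul_sum] at h4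
  have h6 : 2 * X / V * ∑ i ∈ range K, ((1 : ℝ) / 2) ^ i ≤ 2 * X / V * 2 :=
    mul_le_mul_of_nonneg_left h5 (by positivity)
  have h7 : g 0 = V := by rw [hg]; simp
  rw [h7] at h1
  calc ∑ t ∈ W, x t ≤ _ := h1
    _ ≤ W.card * V + 2 * X / V * 2 := by linarith
    _ = W.card * V + 4 * X / V := by ring

/-- from sets with at most `N` elements to all sets -/
lemma any_size {ι κ : Type*} (s : Finset ι) (f : ι → κ → ℂ) (N : ℕ) (hN : 1 ≤ N) (β : ℝ)
    (m : ℕ) : ∀ P : Finset κ, P.card = m →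
    (∀ P' ⊆ P, P'.card ≤ N → ∑ n ∈ s, ‖∑ p ∈ P', f n p‖ ≤ β) →
    ∑ n ∈ s, ‖∑ p ∈ P, f n p‖ ≤ β * (1 + P.card / N) := by
  classical
  induction m using Nat.strong_induction_on with
  | _ m ih =>
    intro P hP h
    have hN0 : (0 : ℝ) < N := by exact_mod_cast hN
    have hβ : 0 ≤ β := by
      have := h ∅ (Finset.empty_subset _) (by simp)
      simpa using this
    by_cases hm : P.card ≤ N
    · refine (h P subset_rfl hm).trans ?_
      have : (0 : ℝ) ≤ P.card / N := by positivity
      nlinarith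
    · push Not at hm
      obtain ⟨P', hP', hc'⟩ := Finset.exists_subset_card_eq hm.le
      have hc : (P \ P').card = P.card - N := by rw [Finset.card_sdiff_of_subset hP', hc']
      have h1 := ih (P \ P').card (by omega) (P \ P') rfl
        (fun Q hQ hcQ => h Q (hQ.trans Finset.sdiff_subset) hcQ)
      have h2 := h P' hP' hc'.le
      have h3 : ∑ n ∈ s, ‖∑ p ∈ P, f n p‖ ≤
          ∑ n ∈ s, ‖∑ p ∈ P \ P', f n p‖ + ∑ n ∈ s, ‖∑ p ∈ P', f n p‖ := by
        rw [← Finset.sum_add_distrib]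
        refine Finset.sum_le_sum fun n _ => ?_
        rw [← Finset.sum_sdiff hP']
        exact norm_add_le _ _
      have h4 : ((P \ P').card : ℝ) = P.card - N := by
        rw [hc, Nat.cast_sub hm.le]
      rw [h4] at h1
      have h5 : (1 : ℝ) + (P.card - N) / N = P.card / N := by field_simp; ring
      rw [h5] at h1
      calc _ ≤ _ := h3
        _ ≤ β * (P.card / N) + β := add_le_add h1 h2
        _ = β * (1 + P.card / N) := by ring

/-- dyadic blocks -/
lemma sum_blocks {M : Type*} [AddCommMonoid M] (f : ℕ → M) (N J : ℕ) :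
    ∑ j ∈ range J, ∑ n ∈ Ioc (N / 2 ^ (j + 1)) (N / 2 ^ j), f n = ∑ n ∈ Ioc (N / 2 ^ J) N, f n := by
  induction J with
  | zero => simp
  | succ J ih =>
    rw [sum_range_succ, ih, add_comm]
    refine Finset.sum_Ioc_consecutive f ?_ (Nat.div_le_self _ _)
    exact Nat.div_le_div_left (Nat.pow_le_pow_right (by norm_num) (Nat.le_succ J)) (by positivity)

/-- real points on a block of frequencies -/
lemma block_real {ι : Type*} (s : Finset ι) (l : ι → ℝ) (c Λ : ℝ) (hl : ∀ n ∈ s, |l n - c| ≤ Λ)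
    (hΛ : 0 ≤ Λ) (P : Finset ℝ) (Γ : ℝ)
    (h : ∀ (a : ι → ℂ) (u : ℝ → ℂ), (∀ n, ‖a n‖ ≤ 1) → (∀ p, ‖u p‖ ≤ 1) →
      ‖∑ t ∈ P, u t * ∑ n ∈ s, a n * ker (l n) (⌊t⌋ : ℝ)‖ ≤ Γ)
    (a : ι → ℂ) (u : ℝ → ℂ) (ha : ∀ n, ‖a n‖ ≤ 1) (hu : ∀ p, ‖u p‖ ≤ 1) :
    ‖∑ t ∈ P, u t * ∑ n ∈ s, a n * ker (l n) t‖ ≤ (2 + Λ) * Γ := by
  have hk : ∀ (x t : ℝ), ker x t = ker (x - c) t * ker c t := by
    intro x t
    unfold ker
    rw [← Complex.exp_add]
    congr 1
    push_cast
    ring
  have hk' : ∀ (x t : ℝ), ker (x - c) t = ker x t * ker (-c) t := by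
    intro x t
    unfold ker
    rw [← Complex.exp_add]
    congr 1
    push_cast
    ring
  have h1 := real_to_int s (fun n => l n - c) Λ hl hΛ P Γ (by
    intro a' u' ha' hu'
    have h2 := h a' (fun t => u' t * ker (-c) (⌊t⌋ : ℝ)) ha' (fun p => by
      rw [norm_mul, norm_ker, mul_one]; exact hu' p)
    refine le_trans (le_of_eq ?_) h2
    congr 1
    refine Finset.sum_congr rfl fun t _ => ?_
    rw [mul_assoc, Finset.mul_sum]
    congr 1
    rw [Finset.mul_sum, Finset.mul_sum]
    refine Finset.sum_congr rfl fun n _ => ?_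
    rw [hk' (l n)]
    ring) a (fun t => u t * ker c t) ha (fun p => by
      rw [norm_mul, norm_ker, mul_one]; exact hu p)
  refine le_trans (le_of_eq ?_) h1
  congr 1
  refine Finset.sum_congr rfl fun t _ => ?_
  rw [mul_assoc, Finset.mul_sum]
  congr 1
  rw [Finset.mul_sum, Finset.mul_sum]
  refine Finset.sum_congr rfl fun n _ => ?_
  rw [hk (l n)]
  ring

end Pool.Agent.Q239.LV
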