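import Pool.Agent.Q239.LV.Real

/-!
# Means over sets of integers from large families, and from large pairs
-/

set_option autoImplicit false

open Finset

namespace Pool.Agent.Q239.LV

/-- the trivial bound -/
lemma means_trivial (N : ℕ) (T : ℝ) (hT : 1 ≤ T) (W : Finset ℤ)
    (hW : ∀ t ∈ W, 0 ≤ (t : ℝ) ∧ (t : ℝ) ≤ T) (hT2 : T ≤ 2025) :
    ∑ n ∈ Icc 1 N, ‖∑ t ∈ W, ker (Real.log (n : ℝ)) (t : ℝ)‖ ≤ 64 * N * Real.sqrt W.card := by
  have h1 : (W.card : ℝ) ≤ 2 * T := by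
    have h := card_le_of_sep T hT (W.image (fun t : ℤ => (t : ℝ))) (by
      intro t ht
      rw [Finset.mem_image] at ht
      obtain ⟨x, hx, rfl⟩ := ht
      exact hW x hx) (by
      intro t ht t' ht' hne
      rw [Finset.mem_image] at ht ht'
      obtain ⟨m, _, rfl⟩ := ht
      obtain ⟨m', _, rfl⟩ := ht'
      have h3 : m ≠ m' := fun h => hne (by rw [h])
      have h4 : (1 : ℤ) ≤ |m - m'| := Int.one_le_abs (sub_ne_zero.2 h3)
      exact_mod_cast h4)
    rwa [Finset.card_image_of_injective _ Int.cast_injective] at h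
  have h2 : Real.sqrt W.card ≤ 64 := by
    rw [show (64 : ℝ) = Real.sqrt (64 ^ 2) by rw [Real.sqrt_sq]; norm_num]
    exact Real.sqrt_le_sqrt (by linarith)
  have h3 : ∀ n ∈ Icc 1 N, ‖∑ t ∈ W, ker (Real.log (n : ℝ)) (t : ℝ)‖ ≤ W.card := by
    intro n _
    refine (norm_sum_le _ _).trans ?_
    simp_rw [norm_ker]
    rw [Finset.sum_const, nsmul_eq_mul, mul_one]
  calc _ ≤ ∑ _n ∈ Icc 1 N, (W.card : ℝ) := Finset.sum_le_sum h3
    _ = N * W.card := by rw [Finset.sum_const, Nat.card_Icc]; simp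
    _ = N * (Real.sqrt W.card * Real.sqrt W.card) := by rw [Real.mul_self_sqrt (Nat.cast_nonneg _)]
    _ ≤ N * (64 * Real.sqrt W.card) := by gcongr
    _ = _ := by ring

/-- means over sets of integers from families with at least `min(N, √T)/45` points -/
theorem means_of_families
    (HL : ∀ ε : ℝ, 0 < ε → ∃ C : ℝ, 0 < C ∧
      ∀ (N : ℕ) (T V : ℝ) (a : ℕ → ℂ) (W : Finset ℤ),
        1 ≤ N → 1 ≤ T → 0 < V →
        (∀ n, ‖a n‖ ≤ 1) →
        (N : ℝ) * T ^ ε ≤ V ^ 2 →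
        (∀ t ∈ W, 0 ≤ (t : ℝ) ∧ (t : ℝ) ≤ T ∧
          V ≤ ‖∑ n ∈ Finset.Icc 1 N, a n * (n : ℂ) ^ (-(((t : ℝ) : ℂ) * Complex.I))‖) →
        min (N : ℝ) (Real.sqrt T) ≤ 45 * W.card →
        (W.card : ℝ) ≤ C * (N : ℝ) ^ 2 / V ^ 2 * T ^ ε) :
    ∀ ε : ℝ, 0 < ε → ∃ C : ℝ, 0 < C ∧ ∀ (N : ℕ) (T : ℝ) (W : Finset ℤ), 1 ≤ N → 1 ≤ T →
      (∀ t ∈ W, 0 ≤ (t : ℝ) ∧ (t : ℝ) ≤ T) → W.card ≤ N →
      ∑ n ∈ Icc 1 N, ‖∑ t ∈ W, ker (Real.log (n : ℝ)) (t : ℝ)‖ ≤
        C * N * T ^ ε * Real.sqrt W.card := by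
  classical
  intro ε hε
  obtain ⟨C₁, hC₁, h⟩ := HL ε hε
  set C₀ := max C₁ 1 with hC₀
  have hC01 : 1 ≤ C₀ := le_max_right _ _
  have hC0C : C₁ ≤ C₀ := le_max_left _ _
  refine ⟨64 + 5 * Real.sqrt (2 * 10 ^ 13 * C₀), by positivity, ?_⟩
  intro N T W hN hT hW hc
  have hN1 : (1 : ℝ) ≤ N := by exact_mod_cast hN
  have hN0 : (0 : ℝ) < N := by linarith
  have hT0 : 0 < T := by linarith
  have hTε : 1 ≤ T ^ ε := Real.one_le_rpow hT hε.le
  have hTε0 : 0 < T ^ ε := by positivity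
  by_cases hT2 : T < 2025
  · refine (means_trivial N T hT W hW hT2.le).trans ?_
    have h1 : 64 * (N : ℝ) * 1 ≤ (64 + 5 * Real.sqrt (2 * 10 ^ 13 * C₀)) * N * T ^ ε := by
      have : 0 ≤ 5 * Real.sqrt (2 * 10 ^ 13 * C₀) := by positivity
      gcongr
      linarith
    rw [mul_one] at h1
    exact mul_le_mul_of_nonneg_right h1 (Real.sqrt_nonneg _)
  push Not at hT2
  by_cases hW0 : W.card = 0
  · rw [Finset.card_eq_zero] at hW0
    rw [hW0]
    simp
  have hR : (0 : ℝ) < W.card := by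
    have : 0 < W.card := by omega
    exact_mod_cast this
  have hRN : (W.card : ℝ) ≤ N := by exact_mod_cast hc
  -- the hypothesis for the kernel
  set Y := C₀ * (N : ℝ) ^ 2 * T ^ ε with hY
  have hY0 : 0 < Y := by positivity
  have h' : ∀ (V : ℝ) (b : ℕ → ℂ) (W : Finset ℤ), 0 < V → (∀ n, ‖b n‖ ≤ 1) →
      (N : ℝ) * T ^ ε ≤ V ^ 2 →
      (∀ t ∈ W, 0 ≤ (t : ℝ) ∧ (t : ℝ) ≤ T ∧ V ≤ ‖∑ n ∈ Icc 1 N, b n * ker (Real.log (n : ℝ)) (t : ℝ)‖) →
      min (N : ℝ) (Real.sqrt T) ≤ 45 * W.card → (W.card : ℝ) * V ^ 2 ≤ Y := by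
    intro V b W hV hb hVT hW hmin
    have h1 := h N T V (fun n => (starRingEnd ℂ) (b n)) W hN hT hV
      (fun n => by rw [Complex.norm_conj]; exact hb n) hVT (fun t ht => by
        refine ⟨(hW t ht).1, (hW t ht).2.1, ?_⟩
        rw [norm_poly_eq]
        simp_rw [Complex.conj_conj]
        exact (hW t ht).2.2) hmin
    rw [div_mul_eq_mul_div, le_div_iff₀ (by positivity)] at h1
    refine h1.trans ?_
    rw [hY]
    gcongr
  set q := ⌊Real.sqrt T / 45⌋₊ with hq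
  set c := ⌈C₀ * N⌉₊ with hcdef
  have hsT : 45 ≤ Real.sqrt T := by
    rw [show (45 : ℝ) = Real.sqrt (45 ^ 2) by rw [Real.sqrt_sq]; norm_num]
    exact Real.sqrt_le_sqrt (by linarith)
  have hq1 : 1 ≤ q := Nat.le_floor (by rw [Nat.cast_one, le_div_iff₀ (by norm_num)]; linarith)
  have hqle : (q : ℝ) ≤ Real.sqrt T / 45 := Nat.floor_le (by positivity)
  have hqlt : Real.sqrt T / 45 < q + 1 := Nat.lt_floor_add_one _
  have hCN : 1 ≤ C₀ * N := one_le_mul_of_one_le_of_one_le hC01 hN1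
  have hc1 : C₀ * N ≤ c := Nat.le_ceil _
  have hc2 : (c : ℝ) ≤ 2 * (C₀ * N) := by
    have := (Nat.ceil_lt_add_one (show 0 ≤ C₀ * (N : ℝ) by linarith)).le
    linarith
  have hNc : (N : ℝ) ≤ c := by nlinarith
  have hc0 : 1 ≤ c := by
    have : (1 : ℝ) ≤ c := by linarith
    exact_mod_cast this
  set M := min q c with hM
  have hM1 : 1 ≤ M := le_min hq1 hc0
  have hM0 : (0 : ℝ) < M := by exact_mod_cast hM1
  have hMc : (M : ℝ) ≤ 2 * (C₀ * N) := by
    have : (M : ℝ) ≤ c := by exact_mod_cast min_le_right q c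
    linarith
  set lam := Real.sqrt (2 * Y / M) with hlam
  have hlam2 : lam ^ 2 = 2 * Y / M := Real.sq_sqrt (by positivity)
  have hlam0 : 0 < lam := Real.sqrt_pos.2 (by positivity)
  have hMlam : M * lam ^ 2 = 2 * Y := by rw [hlam2]; field_simp
  have hlamT : (N : ℝ) * T ^ ε ≤ lam ^ 2 := by
    rw [hlam2, le_div_iff₀ hM0]
    calc (N : ℝ) * T ^ ε * M ≤ N * T ^ ε * (2 * (C₀ * N)) := by gcongr
      _ = 2 * Y := by rw [hY]; ring
  set T0 := ⌊T⌋₊ with hT0'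
  have hT0T : (T0 : ℝ) ≤ T := Nat.floor_le hT0.le
  have hbig : 2000 * M ^ 2 ≤ T0 := by
    refine Nat.le_floor ?_
    push_cast
    have h1 : (M : ℝ) ≤ Real.sqrt T / 45 := by
      have : (M : ℝ) ≤ q := by exact_mod_cast min_le_left q c
      linarith
    have h2 : (M : ℝ) ^ 2 ≤ (Real.sqrt T / 45) ^ 2 := pow_le_pow_left₀ hM0.le h1 2
    rw [div_pow, Real.sq_sqrt hT0.le] at h2
    linarith
  -- families which are not large
  have hsmall : ∀ W' : Finset ℤ, ¬ min (N : ℝ) (Real.sqrt T) ≤ 45 * W'.card → W'.card ≤ M := by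
    intro W' hW'
    push Not at hW'
    have h1 := hW'.trans_le (min_le_left _ _)
    have h2 := hW'.trans_le (min_le_right _ _)
    refine le_min ?_ ?_
    · have h3 : (W'.card : ℝ) < q + 1 := by linarith
      have h4 : W'.card < q + 1 := by exact_mod_cast h3
      omega
    · have h3 : (W'.card : ℝ) ≤ c := by
        have : (0 : ℝ) ≤ W'.card := Nat.cast_nonneg _
        linarith
      exact_mod_cast h3
  have hweak : ∀ b : ℕ → ℂ, (∀ n, ‖b n‖ ≤ 1) → ∀ W : Finset ℤ,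
      (∀ t ∈ W, 0 ≤ t ∧ t ≤ T0 ∧ lam < ‖∑ n ∈ Icc 1 N, b n * ker (Real.log (n : ℝ)) (t : ℝ)‖) →
        W.card ≤ M := by
    intro b hb W' hW'
    by_cases hmin : min (N : ℝ) (Real.sqrt T) ≤ 45 * W'.card
    · by_contra hlt
      push Not at hlt
      have h1 := h' lam b W' hlam0 hb hlamT (fun t ht => by
        have h2 := hW' t ht
        refine ⟨by exact_mod_cast h2.1, ?_, h2.2.2.le⟩
        have h3 : (t : ℝ) ≤ T0 := by exact_mod_cast h2.2.1
        exact h3.trans hT0T) hmin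
      have h2 : (M : ℝ) ≤ W'.card := by exact_mod_cast hlt.le
      have h3 : (M : ℝ) * lam ^ 2 ≤ W'.card * lam ^ 2 := by gcongr
      linarith
    · exact hsmall W' hmin
  have hprop := propagate (Icc 1 N) (fun n t => ker (Real.log (n : ℝ)) (t : ℝ))
    (fun n a b => by rw [Int.cast_add, ker_add]) (fun n a => normSq_ker _ _)
    T0 M hM1 hbig lam hlam0.le hweak
  set X := 2 * 10 ^ 13 * Y with hX
  have hX0 : 0 < X := by positivity
  set V₁ := Real.sqrt (X / W.card) with hV₁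
  have hV₁0 : 0 < V₁ := Real.sqrt_pos.2 (by positivity)
  have hV₁2 : V₁ ^ 2 = X / W.card := Real.sq_sqrt (by positivity)
  have hV₁T : (N : ℝ) * T ^ ε ≤ V₁ ^ 2 := by
    rw [hV₁2, le_div_iff₀ hR, hX, hY]
    calc (N : ℝ) * T ^ ε * W.card ≤ N * T ^ ε * N := by gcongr
      _ = 1 * ((N : ℝ) ^ 2 * T ^ ε) := by ring
      _ ≤ (2 * 10 ^ 13 * C₀) * ((N : ℝ) ^ 2 * T ^ ε) := by
          refine mul_le_mul_of_nonneg_right ?_ (by positivity)
          linarith
      _ = 2 * 10 ^ 13 * (C₀ * (N : ℝ) ^ 2 * T ^ ε) := by ring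
  have hsum : ∀ b : ℕ → ℂ, (∀ n, ‖b n‖ ≤ 1) →
      ∑ t ∈ W, ‖∑ n ∈ Icc 1 N, b n * ker (Real.log (n : ℝ)) (t : ℝ)‖ ≤
        5 * Real.sqrt X * Real.sqrt W.card := by
    intro b hb
    have h1 := sum_le_levels W (fun t => ‖∑ n ∈ Icc 1 N, b n * ker (Real.log (n : ℝ)) (t : ℝ)‖) X V₁
      hV₁0 (by
        intro v hv
        have hv0 : 0 < v := by linarith
        set L := W.filter (fun t : ℤ => v < ‖∑ n ∈ Icc 1 N, b n * ker (Real.log (n : ℝ)) (t : ℝ)‖)
          with hL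
        have hLt : ∀ t ∈ L, 0 ≤ (t : ℝ) ∧ (t : ℝ) ≤ T ∧
            v ≤ ‖∑ n ∈ Icc 1 N, b n * ker (Real.log (n : ℝ)) (t : ℝ)‖ := by
          intro t ht
          rw [hL, Finset.mem_filter] at ht
          exact ⟨(hW t ht.1).1, (hW t ht.1).2, ht.2.le⟩
        by_cases hvl : lam < v
        · have h2 := hprop b hb v hvl L (by
            intro t ht
            have h3 := hLt t ht
            have h4 : 0 ≤ t := by exact_mod_cast h3.1
            have h5 : t.toNat ≤ T0 := Nat.le_floor (by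
              have : ((t.toNat : ℕ) : ℝ) = (t : ℝ) := by
                rw [← Int.cast_natCast, Int.toNat_of_nonneg h4]
              rw [this]; exact h3.2.1)
            exact ⟨h4, by omega, h3.2.2⟩)
          calc _ ≤ _ := h2
            _ = 10 ^ 13 * (M * lam ^ 2) := by ring
            _ = X := by rw [hMlam, hX]; ring
        · push Not at hvl
          by_cases hmin : min (N : ℝ) (Real.sqrt T) ≤ 45 * L.card
          · have h2 := h' v b L hv0 hb (hV₁T.trans (pow_le_pow_left₀ hV₁0.le hv 2)) hLt hmin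
            have h3 : Y ≤ X := by rw [hX]; linarith
            exact h2.trans h3
          · have h2 : (L.card : ℝ) ≤ M := by exact_mod_cast hsmall L hmin
            calc (L.card : ℝ) * v ^ 2 ≤ M * lam ^ 2 := by gcongr
              _ = 2 * Y := hMlam
              _ ≤ X := by rw [hX]; linarith)
    refine h1.trans (le_of_eq ?_)
    have h2 : V₁ = Real.sqrt X / Real.sqrt W.card := Real.sqrt_div hX0.le _
    have h3 : Real.sqrt X * Real.sqrt X = X := Real.mul_self_sqrt hX0.le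
    have h4 : Real.sqrt W.card * Real.sqrt W.card = W.card := Real.mul_self_sqrt hR.le
    have h5 : 0 < Real.sqrt X := Real.sqrt_pos.2 hX0
    have h6 : 0 < Real.sqrt (W.card : ℝ) := Real.sqrt_pos.2 hR
    have h7 : (W.card : ℝ) * V₁ = Real.sqrt X * Real.sqrt W.card := by
      rw [h2]
      nth_rewrite 1 [← h4]
      field_simp
    have h8 : 4 * X / V₁ = 4 * (Real.sqrt X * Real.sqrt W.card) := by
      rw [h2]
      nth_rewrite 1 [← h3]
      field_simp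
    rw [h7, h8]
    ring
  have hdual : ∑ n ∈ Icc 1 N, ‖∑ t ∈ W, ker (Real.log (n : ℝ)) (t : ℝ)‖ ≤
      5 * Real.sqrt X * Real.sqrt W.card := by
    refine sum_norm_poly_le W (Icc 1 N) (fun (t : ℤ) (n : ℕ) => ker (Real.log (n : ℝ)) (t : ℝ)) _
      fun u hu => ?_
    refine le_trans ?_ (hsum u hu)
    calc _ = ‖∑ t ∈ W, ∑ n ∈ Icc 1 N, u n * ker (Real.log (n : ℝ)) (t : ℝ)‖ := by
          congr 1
          simp_rw [Finset.mul_sum]
          rw [Finset.sum_comm]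
      _ ≤ _ := norm_sum_le _ _
  refine hdual.trans ?_
  have h1 : Real.sqrt X ≤ Real.sqrt (2 * 10 ^ 13 * C₀) * N * T ^ ε := by
    have h2 : X ≤ (2 * 10 ^ 13 * C₀) * (N * T ^ ε) ^ 2 := by
      have h3 : T ^ ε ≤ T ^ ε * T ^ ε := le_mul_of_one_le_left hTε0.le hTε
      calc X = (2 * 10 ^ 13 * C₀ * (N : ℝ) ^ 2) * T ^ ε := by rw [hX, hY]; ring
        _ ≤ (2 * 10 ^ 13 * C₀ * (N : ℝ) ^ 2) * (T ^ ε * T ^ ε) := by gcongr
        _ = _ := by ring
    refine (Real.sqrt_le_sqrt h2).trans (le_of_eq ?_)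
    rw [Real.sqrt_mul (by positivity), Real.sqrt_sq (by positivity)]
    ring
  calc 5 * Real.sqrt X * Real.sqrt W.card ≤
        5 * (Real.sqrt (2 * 10 ^ 13 * C₀) * N * T ^ ε) * Real.sqrt W.card := by gcongr
    _ = (5 * Real.sqrt (2 * 10 ^ 13 * C₀)) * (N * T ^ ε * Real.sqrt W.card) := by ring
    _ ≤ (64 + 5 * Real.sqrt (2 * 10 ^ 13 * C₀)) * (N * T ^ ε * Real.sqrt W.card) := by
        refine mul_le_mul_of_nonneg_right (by linarith) (by positivity)
    _ = _ := by ring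

/-- means over sets of integers from pairs of sets, the second with at least `min(N, √T)/4` points -/
theorem means_of_pairs
    (HP : ∀ ε : ℝ, 0 < ε → ∃ C : ℝ, 0 < C ∧
      ∀ (N : ℕ) (T : ℝ) (A : Finset ℕ) (W : Finset ℤ), 1 ≤ N → 1 ≤ T →
        (∀ n ∈ A, 1 ≤ n ∧ n ≤ N) → (∀ t ∈ W, 0 ≤ (t : ℝ) ∧ (t : ℝ) ≤ T) →
        min (N : ℝ) (Real.sqrt T) ≤ 4 * W.card → W.card ≤ N →
        ‖∑ n ∈ A, ∑ t ∈ W, ker (Real.log (n : ℝ)) (t : ℝ)‖ ≤ C * N * T ^ ε * Real.sqrt W.card) :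
    ∀ ε : ℝ, 0 < ε → ∃ C : ℝ, 0 < C ∧ ∀ (N : ℕ) (T : ℝ) (W : Finset ℤ), 1 ≤ N → 1 ≤ T →
      (∀ t ∈ W, 0 ≤ (t : ℝ) ∧ (t : ℝ) ≤ T) → W.card ≤ N →
      ∑ n ∈ Icc 1 N, ‖∑ t ∈ W, ker (Real.log (n : ℝ)) (t : ℝ)‖ ≤
        C * N * T ^ ε * Real.sqrt W.card := by
  classical
  intro ε hε
  obtain ⟨C, hC, h⟩ := HP ε hε
  refine ⟨168 * C, by positivity, ?_⟩
  intro N T W hN hT hW hc
  have hN1 : (1 : ℝ) ≤ N := by exact_mod_cast hN
  have hN0 : (0 : ℝ) < N := by linarith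
  have hT0 : 0 < T := by linarith
  have hTε0 : 0 < T ^ ε := by positivity
  by_cases hmin : min (N : ℝ) (Real.sqrt T) ≤ 4 * W.card
  · have h1 := sum_norm_le (Icc 1 N) (fun n => ∑ t ∈ W, ker (Real.log (n : ℝ)) (t : ℝ))
      (C * N * T ^ ε * Real.sqrt W.card) (fun A hA =>
        h N T A W hN hT (fun n hn => Finset.mem_Icc.1 (hA hn)) hW hmin hc)
    refine h1.trans ?_
    have : 0 ≤ C * N * T ^ ε * Real.sqrt W.card := by positivity
    nlinarith
  by_cases hW0 : W.card = 0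
  · rw [Finset.card_eq_zero] at hW0
    rw [hW0]
    simp
  push Not at hmin
  set μ := min (N : ℝ) (Real.sqrt T) with hμ
  have hR1 : (1 : ℝ) ≤ W.card := by
    have : 1 ≤ W.card := by omega
    exact_mod_cast this
  have hμ4 : 4 < μ := by linarith
  set m := ⌈μ / 4⌉₊ with hm
  have hm1 : μ / 4 ≤ m := Nat.le_ceil _
  have hm2 : (m : ℝ) < μ / 4 + 1 := Nat.ceil_lt_add_one (by linarith)
  have hm3 : 2 * (m : ℝ) ≤ μ := by linarith
  have hmpos : 1 ≤ m := by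
    have : (0 : ℝ) < m := by linarith
    have h2 : 0 < m := by exact_mod_cast this
    omega
  have hm0 : (0 : ℝ) < m := by exact_mod_cast hmpos
  have hmN : 2 * m ≤ N := by
    have : 2 * (m : ℝ) ≤ N := hm3.trans (min_le_left _ _)
    exact_mod_cast this
  set T0 := ⌊T⌋₊ with hT0'
  have hT0T : (T0 : ℝ) ≤ T := Nat.floor_le hT0.le
  have hmT : (2 * m) ^ 2 ≤ T0 := by
    refine Nat.le_floor ?_
    push_cast
    have h1 : 2 * (m : ℝ) ≤ Real.sqrt T := hm3.trans (min_le_right _ _)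
    calc (2 * (m : ℝ)) ^ 2 ≤ Real.sqrt T ^ 2 := pow_le_pow_left₀ (by positivity) h1 2
      _ = T := Real.sq_sqrt hT0.le
  set β := C * N * T ^ ε * Real.sqrt (2 * m) with hβ
  have hβ0 : 0 ≤ β := by positivity
  have hcast : ∀ W' : Finset ℤ, (∀ t ∈ W', 0 ≤ t ∧ t ≤ T0) → ∀ t ∈ W', 0 ≤ (t : ℝ) ∧ (t : ℝ) ≤ T := by
    intro W' hW' t ht
    have h2 := hW' t ht
    refine ⟨by exact_mod_cast h2.1, ?_⟩
    have h3 : (t : ℝ) ≤ T0 := by exact_mod_cast h2.2
    exact h3.trans hT0T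
  have hlarge : ∀ A ⊆ Icc 1 N, ∀ W' : Finset ℤ, (∀ t ∈ W', 0 ≤ t ∧ t ≤ T0) → m ≤ W'.card →
      W'.card ≤ 2 * m → ‖∑ n ∈ A, ∑ t ∈ W', ker (Real.log (n : ℝ)) (t : ℝ)‖ ≤ β := by
    intro A hA W' hW' h1 h2
    refine (h N T A W' hN hT (fun n hn => Finset.mem_Icc.1 (hA hn)) (hcast W' hW') ?_
      (h2.trans hmN)).trans ?_
    · have : (m : ℝ) ≤ W'.card := by exact_mod_cast h1
      linarith
    · have : (W'.card : ℝ) ≤ 2 * m := by exact_mod_cast h2
      rw [hβ]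
      exact mul_le_mul_of_nonneg_left (Real.sqrt_le_sqrt this) (by positivity)
  have hall : ∀ A ⊆ Icc 1 N, ∀ W' : Finset ℤ, (∀ t ∈ W', 0 ≤ t ∧ t ≤ T0) →
      W'.card ≤ 2 * m → ‖∑ n ∈ A, ∑ t ∈ W', ker (Real.log (n : ℝ)) (t : ℝ)‖ ≤ 2 * β := by
    intro A hA W' hW' h2
    by_cases h1 : m ≤ W'.card
    · exact (hlarge A hA W' hW' h1 h2).trans (by linarith)
    · push Not at h1
      -- points to be added
      have hW's : W' ⊆ Icc (0 : ℤ) T0 := fun t ht => Finset.mem_Icc.2 (hW' t ht)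
      have hcardI : (Icc (0 : ℤ) T0).card = T0 + 1 := by
        rw [Int.card_Icc]; omega
      have h3 : m ≤ (Icc (0 : ℤ) T0 \ W').card := by
        rw [Finset.card_sdiff_of_subset hW's, hcardI]
        have : 2 * m ≤ (2 * m) ^ 2 := Nat.le_self_pow two_ne_zero _
        omega
      obtain ⟨Z, hZ, hcZ⟩ := Finset.exists_subset_card_eq h3
      have hZW : Disjoint W' Z := by
        rw [Finset.disjoint_left]
        intro x hx hxZ
        exact (Finset.mem_sdiff.1 (hZ hxZ)).2 hx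
      have hZI : ∀ t ∈ Z, 0 ≤ t ∧ t ≤ T0 := fun t ht =>
        Finset.mem_Icc.1 (Finset.mem_sdiff.1 (hZ ht)).1
      have h4 := hlarge A hA Z hZI hcZ.ge (by omega)
      have h5 := hlarge A hA (W' ∪ Z) (by
        intro t ht
        rcases Finset.mem_union.1 ht with ht | ht
        · exact hW' t ht
        · exact hZI t ht) (by rw [Finset.card_union_of_disjoint hZW]; omega)
        (by rw [Finset.card_union_of_disjoint hZW]; omega)
      have h6 : ∑ n ∈ A, ∑ t ∈ W', ker (Real.log (n : ℝ)) (t : ℝ) =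
          ∑ n ∈ A, ∑ t ∈ W' ∪ Z, ker (Real.log (n : ℝ)) (t : ℝ) -
          ∑ n ∈ A, ∑ t ∈ Z, ker (Real.log (n : ℝ)) (t : ℝ) := by
        rw [← Finset.sum_sub_distrib]
        refine Finset.sum_congr rfl fun n _ => ?_
        rw [Finset.sum_union hZW, add_sub_cancel_right]
      rw [h6]
      exact (norm_sub_le _ _).trans (by linarith)
  have h1 := l1_bound (Icc 1 N) (fun n t => ker (Real.log (n : ℝ)) (t : ℝ))
    (fun n a b => by rw [Int.cast_add, ker_add]) (fun n a => normSq_ker _ _) (2 * m) T0 (by omega)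
    hmT (2 * β) hall W (fun t ht => by
      have h3 := hW t ht
      have h4 : 0 ≤ t := by exact_mod_cast h3.1
      have h5 : t.toNat ≤ T0 := Nat.le_floor (by
        have : ((t.toNat : ℕ) : ℝ) = (t : ℝ) := by
          rw [← Int.cast_natCast, Int.toNat_of_nonneg h4]
        rw [this]; exact h3.2)
      exact ⟨h4, by omega⟩) (by
      have : (W.card : ℝ) ≤ 2 * m := by linarith
      exact_mod_cast this)
  refine h1.trans (le_of_eq ?_)
  have h2 : 0 < Real.sqrt (2 * m) := Real.sqrt_pos.2 (by positivity)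
  rw [hβ]
  push_cast
  rw [Real.sqrt_div (Nat.cast_nonneg _)]
  field_simp
  ring

end Pool.Agent.Q239.LV
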