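import Pool.Agent.Q239.LV.Bil

/-!
# From first moments over all small subsets to second moments; real points and integral parts
-/

set_option autoImplicit false

open Finset

namespace Pool.Agent.Q239.LV

/-- second moment from the first moments over all subsets with at most `N` elements -/
lemma sq_sum_le {κ : Type*} [DecidableEq κ] (f : κ → ℝ) (hf : ∀ t, 0 ≤ f t) (γ : ℝ) (N : ℕ)
    (hN : 1 ≤ N) (R : ℕ) : ∀ W : Finset κ, W.card = R →
    (∀ W' ⊆ W, W'.card ≤ N → ∑ t ∈ W', f t ≤ γ * Real.sqrt W'.card) →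
    ∑ t ∈ W, f t ^ 2 ≤ γ ^ 2 * ∑ k ∈ range R, (1 / ((k : ℝ) + 1) * (if k < N then 1 else 0) + 1 / N) := by
  induction R with
  | zero =>
    intro W hW _
    rw [Finset.card_eq_zero] at hW
    subst hW
    simp
  | succ R ih =>
    intro W hW h
    have hne : W.Nonempty := by
      rw [← Finset.card_pos]
      omega
    obtain ⟨t0, ht0, hmin⟩ := Finset.exists_min_image W f hne
    have h1 := ih (W.erase t0) (by rw [Finset.card_erase_of_mem ht0]; omega)
      (fun W' hW' hc => h W' (hW'.trans (Finset.erase_subset _ _)) hc)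
    have hN0 : (0 : ℝ) < N := by exact_mod_cast hN
    have h2 : f t0 ^ 2 ≤ γ ^ 2 * (1 / ((R : ℝ) + 1) * (if R < N then 1 else 0) + 1 / N) := by
      obtain ⟨W', hW', hc⟩ := Finset.exists_subset_card_eq (show min (R + 1) N ≤ W.card by
        rw [hW]; exact min_le_left _ _)
      have h3 := h W' hW' (by rw [hc]; exact min_le_right _ _)
      have h4 : (W'.card : ℝ) * f t0 ≤ ∑ t ∈ W', f t := by
        have := Finset.card_nsmul_le_sum W' f (f t0) (fun x hx => hmin x (hW' hx))
        simpa using this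
      have hm0 : 0 < W'.card := by rw [hc]; exact lt_min (by omega) (by omega)
      have hm : (0 : ℝ) < W'.card := by exact_mod_cast hm0
      have h5 : Real.sqrt W'.card * (Real.sqrt W'.card * f t0) ≤ Real.sqrt W'.card * γ := by
        rw [← mul_assoc, Real.mul_self_sqrt hm.le, mul_comm (Real.sqrt _) γ]
        exact h4.trans h3
      have h6 : Real.sqrt W'.card * f t0 ≤ γ := le_of_mul_le_mul_left h5 (Real.sqrt_pos.2 hm)
      have h7 : (Real.sqrt W'.card * f t0) ^ 2 ≤ γ ^ 2 :=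
        pow_le_pow_left₀ (mul_nonneg (Real.sqrt_nonneg _) (hf t0)) h6 2
      rw [mul_pow, Real.sq_sqrt hm.le] at h7
      have h8 : f t0 ^ 2 ≤ γ ^ 2 * (1 / W'.card) := by
        rw [mul_one_div, le_div_iff₀ hm]
        linarith
      refine h8.trans (mul_le_mul_of_nonneg_left ?_ (sq_nonneg _))
      rw [hc]
      split_ifs with hRN
      · rw [min_eq_left (by omega)]
        push_cast
        have : (0 : ℝ) ≤ 1 / N := by positivity
        linarith
      · rw [min_eq_right (by omega)]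
        linarith
    rw [Finset.sum_range_succ, ← Finset.sum_erase_add W _ ht0]
    linarith

lemma harm_le (N R : ℕ) :
    ∑ k ∈ range R, (1 / ((k : ℝ) + 1) * (if k < N then 1 else 0) + 1 / N) ≤
      1 + Real.log N + R / N := by
  rw [Finset.sum_add_distrib]
  have h1 : ∑ k ∈ range R, (1 / ((k : ℝ) + 1) * (if k < N then (1 : ℝ) else 0)) ≤
      ∑ k ∈ range N, 1 / ((k : ℝ) + 1) := by
    have h2 : ∑ k ∈ range R, (1 / ((k : ℝ) + 1) * (if k < N then (1 : ℝ) else 0)) =
        ∑ k ∈ (range R).filter (fun k => k < N), 1 / ((k : ℝ) + 1) := by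
      rw [Finset.sum_filter]
      refine Finset.sum_congr rfl fun k _ => ?_
      split_ifs <;> simp
    rw [h2]
    refine Finset.sum_le_sum_of_subset_of_nonneg ?_ (fun k _ _ => by positivity)
    intro k hk
    rw [Finset.mem_filter] at hk
    exact Finset.mem_range.2 hk.2
  have h3 : ∑ k ∈ range N, 1 / ((k : ℝ) + 1) ≤ 1 + Real.log N := by
    have h4 := harmonic_le_one_add_log N
    rw [harmonic] at h4
    push_cast at h4
    simpa [one_div] using h4
  have h5 : ∑ _k ∈ range R, (1 : ℝ) / N = R / N := by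
    rw [Finset.sum_const, Finset.card_range, nsmul_eq_mul]
    ring
  linarith

/-- the kernel `exp (i t λ)` -/
noncomputable def ker (l : ℝ) (t : ℝ) : ℂ := Complex.exp (((t * l : ℝ) : ℂ) * Complex.I)

lemma ker_add (l t u : ℝ) : ker l (t + u) = ker l t * ker l u := by
  unfold ker
  rw [← Complex.exp_add]
  congr 1
  push_cast
  ring

lemma norm_ker (l t : ℝ) : ‖ker l t‖ = 1 := Complex.norm_exp_ofReal_mul_I _

lemma ker_sub_one (l t : ℝ) : ‖ker l t - 1‖ ≤ |t * l| := by
  unfold ker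
  have := Real.norm_exp_I_mul_ofReal_sub_one_le (x := t * l)
  rw [Real.norm_eq_abs] at this
  rwa [mul_comm] at this

/-- from integral parts to real points -/
lemma real_to_int {ι : Type*} (s : Finset ι) (l : ι → ℝ) (Λ : ℝ) (hl : ∀ n ∈ s, |l n| ≤ Λ)
    (hΛ : 0 ≤ Λ) (P : Finset ℝ) (Γ : ℝ)
    (h : ∀ (a : ι → ℂ) (u : ℝ → ℂ), (∀ n, ‖a n‖ ≤ 1) → (∀ p, ‖u p‖ ≤ 1) →
      ‖∑ t ∈ P, u t * ∑ n ∈ s, a n * ker (l n) (⌊t⌋ : ℝ)‖ ≤ Γ)
    (a : ι → ℂ) (u : ℝ → ℂ) (ha : ∀ n, ‖a n‖ ≤ 1) (hu : ∀ p, ‖u p‖ ≤ 1) :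
    ‖∑ t ∈ P, u t * ∑ n ∈ s, a n * ker (l n) t‖ ≤ (2 + Λ) * Γ := by
  classical
  have hΓ : 0 ≤ Γ := (norm_nonneg _).trans (h a u ha hu)
  refine le_of_forall_pos_le_add fun δ hδ => ?_
  obtain ⟨Q, hQ⟩ := exists_nat_gt (P.card * (s.card * Λ) / δ)
  have hQ0 : 0 < Q := by
    have : (0 : ℝ) ≤ P.card * (s.card * Λ) / δ := by positivity
    exact_mod_cast this.trans_lt hQ
  have hQr : (0 : ℝ) < Q := by exact_mod_cast hQ0
  set k : ℝ → ℕ := fun t => ⌊Int.fract t * Q⌋₊ with hk
  have hkQ : ∀ t, k t < Q := by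
    intro t
    rw [hk]
    dsimp only
    rw [Nat.floor_lt (mul_nonneg (Int.fract_nonneg t) hQr.le)]
    have := Int.fract_lt_one t
    nlinarith
  -- the grid approximation
  have happ : ∀ n ∈ s, ∀ t : ℝ, ‖ker (l n) t - ker (l n) (⌊t⌋ : ℝ) * (ker (l n) (1 / Q)) ^ (k t)‖ ≤
      Λ / Q := by
    intro n hn t
    have h1 : (ker (l n) (1 / Q)) ^ (k t) = ker (l n) (k t / Q) := by
      unfold ker
      rw [← Complex.exp_nat_mul]
      congr 1
      push_cast
      ring
    have h2 : ker (l n) t = ker (l n) (⌊t⌋ : ℝ) * ker (l n) (k t / Q) *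
        ker (l n) (Int.fract t - k t / Q) := by
      rw [← ker_add, ← ker_add]
      congr 1
      have := Int.floor_add_fract t
      linarith
    rw [h1, h2]
    have h3 : ker (l n) (⌊t⌋ : ℝ) * ker (l n) (k t / Q) * ker (l n) (Int.fract t - k t / Q) -
        ker (l n) (⌊t⌋ : ℝ) * ker (l n) (k t / Q) =
        ker (l n) (⌊t⌋ : ℝ) * ker (l n) (k t / Q) * (ker (l n) (Int.fract t - k t / Q) - 1) := by
      ring
    rw [h3, norm_mul, norm_mul, norm_ker, norm_ker, one_mul, one_mul]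
    refine (ker_sub_one _ _).trans ?_
    rw [abs_mul]
    have h4 : |Int.fract t - k t / Q| ≤ 1 / Q := by
      have h5 : (k t : ℝ) ≤ Int.fract t * Q :=
        Nat.floor_le (mul_nonneg (Int.fract_nonneg t) hQr.le)
      have h6 : Int.fract t * Q < k t + 1 := Nat.lt_floor_add_one _
      rw [abs_le]
      constructor
      · have : (0 : ℝ) ≤ 1 / Q := by positivity
        have h7 : (k t : ℝ) / Q ≤ Int.fract t := by rwa [div_le_iff₀ hQr]
        linarith
      · rw [sub_le_iff_le_add, ← add_div, le_div_iff₀ hQr]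
        linarith
    calc |Int.fract t - k t / Q| * |l n| ≤ 1 / Q * Λ :=
          mul_le_mul h4 (hl n hn) (abs_nonneg _) (by positivity)
      _ = Λ / Q := by ring
  -- the telescoped sum
  have htel : ‖∑ t ∈ P, u t * ∑ n ∈ s, a n * (ker (l n) (⌊t⌋ : ℝ) * (ker (l n) (1 / Q)) ^ (k t))‖ ≤
      (2 + Λ) * Γ := by
    have h1 : ∑ t ∈ P, u t * ∑ n ∈ s, a n * (ker (l n) (⌊t⌋ : ℝ) * (ker (l n) (1 / Q)) ^ (k t)) =
        ∑ t ∈ P, u t * ∑ n ∈ s, a n * ker (l n) (⌊t⌋ : ℝ) +
        ∑ j ∈ range Q, (((1 + Λ) / Q : ℝ) : ℂ) * ∑ t ∈ P, ((if j < k t then 1 else 0) * u t) *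
          ∑ n ∈ s, (a n * (ker (l n) (1 / Q) ^ j * ((ker (l n) (1 / Q) - 1) * ((Q / (1 + Λ) : ℝ) : ℂ)))) *
            ker (l n) (⌊t⌋ : ℝ) := by
      have h2 : ∀ n, ∀ t, (ker (l n) (1 / Q)) ^ (k t) = 1 + ∑ j ∈ range Q,
          (if j < k t then 1 else 0) * (ker (l n) (1 / Q) ^ j * (ker (l n) (1 / Q) - 1)) := by
        intro n t
        have h3 : ∑ j ∈ range Q,
            (if j < k t then (1 : ℂ) else 0) * (ker (l n) (1 / Q) ^ j * (ker (l n) (1 / Q) - 1)) =
            (∑ j ∈ range (k t), ker (l n) (1 / Q) ^ j) * (ker (l n) (1 / Q) - 1) := by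
          rw [Finset.sum_mul]
          have h4 : range (k t) = (range Q).filter (fun j => j < k t) := by
            ext j
            simp only [Finset.mem_range, Finset.mem_filter]
            have := hkQ t
            omega
          rw [h4, Finset.sum_filter]
          refine Finset.sum_congr rfl fun j _ => ?_
          split_ifs <;> simp
        rw [h3, geom_sum_mul]
        ring
      have hΛ1 : ((1 + Λ : ℝ) : ℂ) ≠ 0 := by
        have : (0 : ℝ) < 1 + Λ := by linarith
        exact_mod_cast this.ne'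
      have hQc : (Q : ℂ) ≠ 0 := by exact_mod_cast hQ0.ne'
      have h5 : ∀ t ∈ P, u t * ∑ n ∈ s, a n * (ker (l n) (⌊t⌋ : ℝ) * (ker (l n) (1 / Q)) ^ (k t)) =
          u t * ∑ n ∈ s, a n * ker (l n) (⌊t⌋ : ℝ) +
          ∑ j ∈ range Q, (((1 + Λ) / Q : ℝ) : ℂ) * (((if j < k t then 1 else 0) * u t) *
          ∑ n ∈ s, (a n * (ker (l n) (1 / Q) ^ j * ((ker (l n) (1 / Q) - 1) * ((Q / (1 + Λ) : ℝ) : ℂ)))) *
            ker (l n) (⌊t⌋ : ℝ)) := by
        intro t _
        have h6 : ∀ n ∈ s, a n * (ker (l n) (⌊t⌋ : ℝ) * (ker (l n) (1 / Q)) ^ (k t)) =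
            a n * ker (l n) (⌊t⌋ : ℝ) + ∑ j ∈ range Q, (if j < k t then 1 else 0) *
              (a n * (ker (l n) (1 / Q) ^ j * (ker (l n) (1 / Q) - 1)) * ker (l n) (⌊t⌋ : ℝ)) := by
          intro n _
          rw [h2 n t, mul_add, mul_add, mul_one, Finset.mul_sum, Finset.mul_sum]
          congr 1
          refine Finset.sum_congr rfl fun j _ => ?_
          ring
        rw [Finset.sum_congr rfl h6, Finset.sum_add_distrib, mul_add]
        congr 1
        rw [Finset.sum_comm, Finset.mul_sum]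
        refine Finset.sum_congr rfl fun j _ => ?_
        rw [Finset.mul_sum, Finset.mul_sum, Finset.mul_sum]
        refine Finset.sum_congr rfl fun n _ => ?_
        push_cast at hΛ1 ⊢
        field_simp
      rw [Finset.sum_congr rfl h5, Finset.sum_add_distrib]
      congr 1
      rw [Finset.sum_comm]
      refine Finset.sum_congr rfl fun j _ => ?_
      rw [Finset.mul_sum]
    rw [h1]
    have h7 : ∀ j ∈ range Q, ‖(((1 + Λ) / Q : ℝ) : ℂ) * ∑ t ∈ P, ((if j < k t then 1 else 0) * u t) *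
          ∑ n ∈ s, (a n * (ker (l n) (1 / Q) ^ j * ((ker (l n) (1 / Q) - 1) * ((Q / (1 + Λ) : ℝ) : ℂ)))) *
            ker (l n) (⌊t⌋ : ℝ)‖ ≤ (1 + Λ) / Q * Γ := by
      intro j _
      rw [norm_mul, Complex.norm_real, Real.norm_eq_abs, abs_of_nonneg (by positivity)]
      refine mul_le_mul_of_nonneg_left ?_ (by positivity)
      -- cut the coefficients outside `s`
      have h8 := h (fun n => if n ∈ s then a n * (ker (l n) (1 / Q) ^ j *
        ((ker (l n) (1 / Q) - 1) * ((Q / (1 + Λ) : ℝ) : ℂ))) else 0)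
        (fun t => (if j < k t then 1 else 0) * u t) (by
          intro n
          split_ifs with hn
          · rw [norm_mul, norm_mul, norm_mul, norm_pow, norm_ker, one_pow, one_mul,
              Complex.norm_real, Real.norm_eq_abs, abs_of_nonneg (by positivity)]
            have h9 : ‖ker (l n) (1 / Q) - 1‖ ≤ Λ / Q := by
              refine (ker_sub_one _ _).trans ?_
              rw [abs_mul, abs_of_nonneg (by positivity : (0 : ℝ) ≤ 1 / Q)]
              calc 1 / (Q : ℝ) * |l n| ≤ 1 / Q * Λ :=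
                    mul_le_mul_of_nonneg_left (hl n hn) (by positivity)
                _ = Λ / Q := by ring
            have h10 : ‖ker (l n) (1 / Q) - 1‖ * (Q / (1 + Λ)) ≤ 1 := by
              calc ‖ker (l n) (1 / Q) - 1‖ * (Q / (1 + Λ)) ≤ Λ / Q * (Q / (1 + Λ)) :=
                    mul_le_mul_of_nonneg_right h9 (by positivity)
                _ = Λ / (1 + Λ) := by field_simp
                _ ≤ 1 := by rw [div_le_one (by linarith)]; linarith
            calc ‖a n‖ * (‖ker (l n) (1 / Q) - 1‖ * (Q / (1 + Λ))) ≤ 1 * 1 :=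
                  mul_le_mul (ha n) h10 (by positivity) zero_le_one
              _ = 1 := one_mul 1
          · simp) (by
          intro t
          split_ifs
          · rw [one_mul]; exact hu t
          · simp)
      refine le_trans (le_of_eq ?_) h8
      congr 1
      refine Finset.sum_congr rfl fun t _ => ?_
      congr 1
      refine Finset.sum_congr rfl fun n hn => ?_
      rw [if_pos hn]
    calc _ ≤ ‖∑ t ∈ P, u t * ∑ n ∈ s, a n * ker (l n) (⌊t⌋ : ℝ)‖ + ‖∑ j ∈ range Q, _‖ := norm_add_le _ _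
      _ ≤ Γ + ∑ j ∈ range Q, (1 + Λ) / Q * Γ :=
          add_le_add (h a u ha hu) ((norm_sum_le _ _).trans (Finset.sum_le_sum h7))
      _ = (2 + Λ) * Γ := by
          rw [Finset.sum_const, Finset.card_range, nsmul_eq_mul]
          field_simp
          ring
  have herr : ‖∑ t ∈ P, u t * ∑ n ∈ s, a n * ker (l n) t -
      ∑ t ∈ P, u t * ∑ n ∈ s, a n * (ker (l n) (⌊t⌋ : ℝ) * (ker (l n) (1 / Q)) ^ (k t))‖ ≤ δ := by
    rw [← Finset.sum_sub_distrib]
    calc _ ≤ ∑ t ∈ P, ‖u t * ∑ n ∈ s, a n * ker (l n) t -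
          u t * ∑ n ∈ s, a n * (ker (l n) (⌊t⌋ : ℝ) * (ker (l n) (1 / Q)) ^ (k t))‖ := norm_sum_le _ _
      _ ≤ ∑ _t ∈ P, (s.card * (Λ / Q)) := by
          refine Finset.sum_le_sum fun t _ => ?_
          rw [← mul_sub, norm_mul, ← Finset.sum_sub_distrib]
          calc ‖u t‖ * ‖∑ n ∈ s, (a n * ker (l n) t -
                a n * (ker (l n) (⌊t⌋ : ℝ) * (ker (l n) (1 / Q)) ^ (k t)))‖ ≤
                1 * ∑ n ∈ s, ‖a n * ker (l n) t -
                a n * (ker (l n) (⌊t⌋ : ℝ) * (ker (l n) (1 / Q)) ^ (k t))‖ :=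
                mul_le_mul (hu t) (norm_sum_le _ _) (norm_nonneg _) zero_le_one
            _ ≤ 1 * ∑ _n ∈ s, Λ / Q := by
                rw [one_mul, one_mul]
                refine Finset.sum_le_sum fun n hn => ?_
                rw [← mul_sub, norm_mul]
                calc _ ≤ 1 * (Λ / Q) := mul_le_mul (ha n) (happ n hn t) (norm_nonneg _) zero_le_one
                  _ = Λ / Q := one_mul _
            _ = s.card * (Λ / Q) := by
                rw [Finset.sum_const, nsmul_eq_mul, one_mul]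
      _ = P.card * (s.card * Λ) / Q := by
          rw [Finset.sum_const, nsmul_eq_mul]
          ring
      _ ≤ δ := by
          rw [div_le_iff₀ hQr]
          rw [div_lt_iff₀ hδ] at hQ
          linarith
  calc _ = ‖(∑ t ∈ P, u t * ∑ n ∈ s, a n * ker (l n) t -
      ∑ t ∈ P, u t * ∑ n ∈ s, a n * (ker (l n) (⌊t⌋ : ℝ) * (ker (l n) (1 / Q)) ^ (k t))) +
      ∑ t ∈ P, u t * ∑ n ∈ s, a n * (ker (l n) (⌊t⌋ : ℝ) * (ker (l n) (1 / Q)) ^ (k t))‖ := by
        rw [sub_add_cancel]
    _ ≤ _ := norm_add_le _ _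
    _ ≤ (2 + Λ) * Γ + δ := by linarith

end Pool.Agent.Q239.LV
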