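import Pool.Agent.Q239.LV.Lev

/-!
# Self-improvement of large value estimates

Let `e` be a multiplicative unimodular kernel on `s × ℤ` and let every sum `D_b(t) = ∑_{n ∈ s} b_n e(n,t)`,
`|b_n| ≤ 1`, have at most `M` points `t` in `[0,T]` with `|D_b(t)| > λ`. If `T ≥ 2000 M²`, then every
such sum has at most `10^13 M λ² / V²` points in `[0,T]` with `|D_b(t)| ≥ V`, for every `V > λ`.
-/

set_option autoImplicit false

open Finset

namespace Pool.Agent.Q239.LV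

/-- the `ℓ¹` norm of the sum over a translated set -/
lemma l1_translate {ι : Type*} (s : Finset ι) (e : ι → ℤ → ℂ)
    (he : ∀ n a b, e n (a + b) = e n a * e n b) (hn : ∀ n a, Complex.normSq (e n a) = 1)
    (W : Finset ℤ) (x : ℤ) :
    ∑ n ∈ s, ‖∑ t ∈ W, e n t‖ = ∑ n ∈ s, ‖∑ t ∈ W.image (fun t => t - x), e n t‖ := by
  classical
  refine Finset.sum_congr rfl fun n _ => ?_
  rw [Finset.sum_image (fun a _ b _ hab => by simpa using hab)]
  have h1 : ∑ t ∈ W, e n t = e n x * ∑ t ∈ W, e n (t - x) := by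
    rw [Finset.mul_sum]
    refine Finset.sum_congr rfl fun t _ => ?_
    rw [← he]
    congr 1
    ring
  have h2 : ‖e n x‖ = 1 := by
    have := hn n x
    rw [Complex.normSq_eq_norm_sq] at this
    exact (pow_eq_one_iff_of_nonneg (norm_nonneg _) two_ne_zero).1 this
  rw [h1, norm_mul, h2, one_mul]

/-- first moments of bounded coefficient sums from `ℓ¹` norms of sums over sets -/
lemma first_moment {ι : Type*} (s : Finset ι) (e : ι → ℤ → ℂ) (W : Finset ℤ) (β : ℝ)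
    (h : ∀ W' ⊆ W, ∑ n ∈ s, ‖∑ t ∈ W', e n t‖ ≤ β) (b : ι → ℂ) (hb : ∀ n, ‖b n‖ ≤ 1) :
    ∑ t ∈ W, ‖∑ n ∈ s, b n * e n t‖ ≤ 4 * β := by
  refine sum_norm_le W _ β fun W' hW' => ?_
  rw [Finset.sum_comm]
  simp_rw [← Finset.mul_sum]
  refine (norm_sum_le _ _).trans ((Finset.sum_le_sum fun n _ => ?_).trans (h W' hW'))
  rw [norm_mul]
  exact mul_le_of_le_one_left (norm_nonneg _) (hb n)

/-- a weak type estimate implies the `ℓ¹` bound for all sets of at most `M` points -/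
theorem weak_l1 {ι : Type*} (s : Finset ι) (e : ι → ℤ → ℂ)
    (he : ∀ n a b, e n (a + b) = e n a * e n b) (hn : ∀ n a, Complex.normSq (e n a) = 1)
    (T M : ℕ) (hM : 1 ≤ M) (hT : 2000 * M ^ 2 ≤ T) (lam : ℝ) (hlam : 0 ≤ lam)
    (H : ∀ b : ι → ℂ, (∀ n, ‖b n‖ ≤ 1) → ∀ W : Finset ℤ,
      (∀ t ∈ W, 0 ≤ t ∧ t ≤ T ∧ lam < ‖∑ n ∈ s, b n * e n t‖) → W.card ≤ M)
    (W : Finset ℤ) (hW : ∀ t ∈ W, 0 ≤ t ∧ t ≤ T) (hc : W.card ≤ M) :
    ∑ n ∈ s, ‖∑ t ∈ W, e n t‖ ≤ 3844 * M * lam := by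
  classical
  set L := T / 4 + 1 with hL
  -- the extremal set in `[0, L)`
  set 𝒲 := (Finset.Ico (0 : ℤ) L).powerset.filter (fun W => W.card ≤ M) with h𝒲
  obtain ⟨W0, hW0, hmax⟩ := Finset.exists_max_image 𝒲 (fun W => ∑ n ∈ s, ‖∑ t ∈ W, e n t‖)
    ⟨∅, by rw [h𝒲, Finset.mem_filter]; simp⟩
  rw [h𝒲, Finset.mem_filter, Finset.mem_powerset] at hW0
  set G := ∑ n ∈ s, ‖∑ t ∈ W0, e n t‖ with hG
  have hG0 : 0 ≤ G := Finset.sum_nonneg fun n _ => norm_nonneg _
  -- sets in `[0, T]`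
  have hcut : ∀ W : Finset ℤ, (∀ t ∈ W, 0 ≤ t ∧ t ≤ T) → W.card ≤ M →
      ∑ n ∈ s, ‖∑ t ∈ W, e n t‖ ≤ 4 * G := by
    intro W hW hc
    have h1 : ∀ n, ‖∑ t ∈ W, e n t‖ ≤
        ∑ i ∈ range 4, ‖∑ t ∈ W.filter (fun t => t / (L : ℤ) = i), e n t‖ := by
      intro n
      have h2 : ∑ t ∈ W, e n t = ∑ i ∈ range 4, ∑ t ∈ W.filter (fun t => t / (L : ℤ) = i), e n t := by
        have h3 := Finset.sum_fiberwise_of_maps_to (s := W) (t := (range 4).image (fun i : ℕ => (i : ℤ)))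
          (g := fun t => t / (L : ℤ)) (fun t ht => by
            rw [Finset.mem_image]
            have h4 := hW t ht
            have hL0 : (0 : ℤ) < L := by rw [hL]; positivity
            have h5 : 0 ≤ t / (L : ℤ) := Int.ediv_nonneg h4.1 hL0.le
            have h6 : t / (L : ℤ) < 4 := by
              rw [Int.ediv_lt_iff_lt_mul hL0]
              have : (T : ℤ) < 4 * L := by
                have : T < 4 * L := by omega
                exact_mod_cast this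
              linarith [h4.2]
            exact ⟨(t / (L : ℤ)).toNat, by rw [Finset.mem_range]; omega, by omega⟩) (fun t => e n t)
        rw [← h3, Finset.sum_image (fun a _ b _ hab => by exact_mod_cast hab)]
      rw [h2]
      exact norm_sum_le _ _
    calc ∑ n ∈ s, ‖∑ t ∈ W, e n t‖ ≤ ∑ n ∈ s, ∑ i ∈ range 4,
          ‖∑ t ∈ W.filter (fun t => t / (L : ℤ) = i), e n t‖ := Finset.sum_le_sum fun n _ => h1 n
      _ = ∑ i ∈ range 4, ∑ n ∈ s, ‖∑ t ∈ W.filter (fun t => t / (L : ℤ) = i), e n t‖ :=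
          Finset.sum_comm
      _ ≤ ∑ _i ∈ range 4, G := by
          refine Finset.sum_le_sum fun i _ => ?_
          rw [l1_translate s e he hn _ ((i : ℤ) * L)]
          refine hmax _ ?_
          rw [h𝒲, Finset.mem_filter, Finset.mem_powerset]
          constructor
          · intro t ht
            rw [Finset.mem_image] at ht
            obtain ⟨x, hx, rfl⟩ := ht
            rw [Finset.mem_filter] at hx
            rw [Finset.mem_Ico]
            have hL0 : (0 : ℤ) < L := by rw [hL]; positivity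
            have h5 := Int.mul_ediv_self_le (x := x) (k := (L : ℤ)) hL0.ne'
            have h6 := Int.lt_mul_ediv_self_add (x := x) hL0
            rw [hx.2] at h5 h6
            constructor <;> nlinarith
          · exact Finset.card_image_le.trans ((Finset.card_le_card (Finset.filter_subset _ _)).trans hc)
      _ = 4 * G := by rw [Finset.sum_const, Finset.card_range]; ring
  -- the translates of the extremal set
  obtain ⟨K, hK⟩ : ∃ K : ℕ, K = 961 := ⟨_, rfl⟩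
  have hT1 : 1 ≤ T := by
    have h3 : 1 ≤ M ^ 2 := Nat.one_le_pow 2 M hM
    linarith
  have hKr : (K : ℝ) = 961 := by rw [hK]; norm_num
  obtain ⟨S, hS, hdis⟩ := exists_shifts W0 (T + 1 - L) (by omega) K (by
    have h1 : W0.card ^ 2 ≤ M ^ 2 := Nat.pow_le_pow_left hW0.2 2
    have h2 : K * W0.card ^ 2 ≤ 961 * M ^ 2 := by rw [hK]; exact Nat.mul_le_mul_left _ h1
    have h3 : 1 ≤ M ^ 2 := Nat.one_le_pow 2 M hM
    refine h2.trans ?_
    generalize M ^ 2 = q at hT h3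
    omega)
  have hinj : Set.InjOn (fun p : ℕ × ℤ => p.2 + S p.1)
      (((range K) ×ˢ W0 : Finset (ℕ × ℤ)) : Set (ℕ × ℤ)) := by
    intro p hp q hq hpq
    rw [Finset.mem_coe, Finset.mem_product, Finset.mem_range] at hp hq
    dsimp only at hpq
    by_cases hpq1 : p.1 = q.1
    · rw [hpq1] at hpq
      exact Prod.ext hpq1 (by linarith)
    · exact absurd hpq (hdis _ hp.1 _ hq.1 hpq1 _ hp.2 _ hq.2)
  obtain ⟨ε, hε, h1⟩ := exists_signs_sqrt s (fun n => ‖∑ t ∈ W0, e n t‖)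
    (fun n _ => norm_nonneg _) K (by omega) (fun j n => e n (S j)) (fun j n _ => hn n (S j))
  have hsq : Real.sqrt (K : ℝ) = 31 := by
    rw [hKr, show (961 : ℝ) = 31 ^ 2 by norm_num]
    exact Real.sqrt_sq (by norm_num)
  rw [hsq] at h1
  set P := (range K) ×ˢ W0 with hP
  set X : ι → ℂ := fun n => ∑ p ∈ P, (ε p.1 : ℂ) * e n (p.2 + S p.1) with hX
  have h5 : ∀ n, ‖∑ t ∈ W0, e n t‖ * ‖∑ j ∈ range K, (ε j : ℂ) * e n (S j)‖ = ‖X n‖ := by
    intro n
    rw [hX]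
    dsimp only
    rw [← norm_mul, Finset.sum_product, Finset.sum_mul_sum, Finset.sum_comm]
    congr 1
    refine Finset.sum_congr rfl fun t _ => Finset.sum_congr rfl fun j _ => ?_
    rw [he]
    ring
  simp_rw [h5] at h1
  -- the dual polynomial
  set b : ι → ℂ := fun n => if X n = 0 then 0 else (‖X n‖ : ℂ) / X n with hb
  have hb1 : ∀ n, ‖b n‖ ≤ 1 := by
    intro n
    rw [hb]
    dsimp only
    split_ifs with h0
    · simp
    · rw [norm_div, Complex.norm_real, norm_norm, div_self (norm_ne_zero_iff.2 h0)]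
  have h6 : ∑ n ∈ s, ‖X n‖ ≤ ∑ p ∈ P, ‖∑ n ∈ s, b n * e n (p.2 + S p.1)‖ := by
    have h7 : ((∑ n ∈ s, ‖X n‖ : ℝ) : ℂ) = ∑ p ∈ P, (ε p.1 : ℂ) * ∑ n ∈ s, b n * e n (p.2 + S p.1) := by
      have h8 : ((∑ n ∈ s, ‖X n‖ : ℝ) : ℂ) = ∑ n ∈ s, b n * X n := by
        push_cast
        refine Finset.sum_congr rfl fun n _ => ?_
        rw [hb]
        dsimp only
        split_ifs with h0
        · rw [h0]; simp
        · rw [div_mul_cancel₀ _ h0]
      rw [h8]
      simp_rw [hX, Finset.mul_sum]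
      rw [Finset.sum_comm]
      refine Finset.sum_congr rfl fun p _ => Finset.sum_congr rfl fun n _ => ?_
      ring
    have h8 : ∑ n ∈ s, ‖X n‖ = ‖((∑ n ∈ s, ‖X n‖ : ℝ) : ℂ)‖ := by
      rw [Complex.norm_real, Real.norm_eq_abs, abs_of_nonneg (Finset.sum_nonneg fun n _ => norm_nonneg _)]
    rw [h8, h7]
    refine (norm_sum_le _ _).trans (Finset.sum_le_sum fun p _ => ?_)
    rw [norm_mul, Complex.norm_real, Real.norm_eq_abs, hε, one_mul]
  -- small and large values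
  set P1 := P.filter (fun p => ‖∑ n ∈ s, b n * e n (p.2 + S p.1)‖ ≤ lam) with hP1
  set P2 := P.filter (fun p => ¬ ‖∑ n ∈ s, b n * e n (p.2 + S p.1)‖ ≤ lam) with hP2
  have hPcard : (P.card : ℝ) ≤ 961 * M := by
    have : P.card ≤ K * M := by
      rw [hP, Finset.card_product, Finset.card_range]
      exact Nat.mul_le_mul_left _ hW0.2
    rw [← hKr]
    exact_mod_cast this
  have h9 : ∑ p ∈ P1, ‖∑ n ∈ s, b n * e n (p.2 + S p.1)‖ ≤ 961 * M * lam := by
    calc _ ≤ ∑ _p ∈ P1, lam := Finset.sum_le_sum fun p hp => (Finset.mem_filter.1 hp).2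
      _ = P1.card * lam := by rw [Finset.sum_const, nsmul_eq_mul]
      _ ≤ 961 * M * lam := by
        refine mul_le_mul_of_nonneg_right (le_trans ?_ hPcard) hlam
        exact_mod_cast Finset.card_le_card (Finset.filter_subset _ _)
  have hrange : ∀ p ∈ P, 0 ≤ p.2 + S p.1 ∧ p.2 + S p.1 ≤ T := by
    intro p hp
    rw [hP, Finset.mem_product] at hp
    have a1 := Finset.mem_Ico.1 (hW0.1 hp.2)
    have a2 := hS p.1
    have a3 : ((T + 1 - L : ℕ) : ℤ) = T + 1 - L := by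
      have : L ≤ T + 1 := by omega
      push_cast [this]
      ring
    rw [a3] at a2
    constructor <;> [linarith [a1.1, a2.1]; linarith [a1.2, a2.2]]
  have hinj2 : Set.InjOn (fun p : ℕ × ℤ => p.2 + S p.1) (P2 : Set (ℕ × ℤ)) :=
    hinj.mono (by
      intro p hp
      exact Finset.mem_coe.2 ((Finset.filter_subset _ _) (Finset.mem_coe.1 hp)))
  have h10 : ∑ p ∈ P2, ‖∑ n ∈ s, b n * e n (p.2 + S p.1)‖ ≤ 16 * G := by
    set W2 := P2.image (fun p : ℕ × ℤ => p.2 + S p.1) with hW2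
    have e1 : ∑ p ∈ P2, ‖∑ n ∈ s, b n * e n (p.2 + S p.1)‖ = ∑ t ∈ W2, ‖∑ n ∈ s, b n * e n t‖ := by
      rw [hW2, Finset.sum_image (fun p hp q hq hpq => hinj2 hp hq hpq)]
    have e2 : ∀ t ∈ W2, 0 ≤ t ∧ t ≤ T ∧ lam < ‖∑ n ∈ s, b n * e n t‖ := by
      intro t ht
      rw [hW2, Finset.mem_image] at ht
      obtain ⟨p, hp, rfl⟩ := ht
      rw [hP2, Finset.mem_filter] at hp
      exact ⟨(hrange p hp.1).1, (hrange p hp.1).2, not_le.1 hp.2⟩
    have e3 := H b hb1 W2 e2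
    rw [e1]
    have e4 := first_moment s e W2 (4 * G) (fun W' hW' =>
      hcut W' (fun t ht => ⟨(e2 t (hW' ht)).1, (e2 t (hW' ht)).2.1⟩)
        ((Finset.card_le_card hW').trans e3)) b hb1
    linarith
  have h11 : ∑ p ∈ P, ‖∑ n ∈ s, b n * e n (p.2 + S p.1)‖ =
      ∑ p ∈ P1, ‖∑ n ∈ s, b n * e n (p.2 + S p.1)‖ +
      ∑ p ∈ P2, ‖∑ n ∈ s, b n * e n (p.2 + S p.1)‖ :=
    (Finset.sum_filter_add_sum_filter_not _ _ _).symm
  have h12 : G ≤ 961 * M * lam := by linarith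
  have h13 := hcut W hW hc
  linarith

/-- **self-improvement of a weak type estimate** -/
theorem propagate {ι : Type*} (s : Finset ι) (e : ι → ℤ → ℂ)
    (he : ∀ n a b, e n (a + b) = e n a * e n b) (hn : ∀ n a, Complex.normSq (e n a) = 1)
    (T M : ℕ) (hM : 1 ≤ M) (hT : 2000 * M ^ 2 ≤ T) (lam : ℝ) (hlam : 0 ≤ lam)
    (H : ∀ b : ι → ℂ, (∀ n, ‖b n‖ ≤ 1) → ∀ W : Finset ℤ,
      (∀ t ∈ W, 0 ≤ t ∧ t ≤ T ∧ lam < ‖∑ n ∈ s, b n * e n t‖) → W.card ≤ M)
    (b : ι → ℂ) (hb : ∀ n, ‖b n‖ ≤ 1) (V : ℝ) (hV : lam < V) (W : Finset ℤ)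
    (hW : ∀ t ∈ W, 0 ≤ t ∧ t ≤ T ∧ V ≤ ‖∑ n ∈ s, b n * e n t‖) :
    (W.card : ℝ) * V ^ 2 ≤ 10 ^ 13 * M * lam ^ 2 := by
  have hc := H b hb W fun t ht => ⟨(hW t ht).1, (hW t ht).2.1, hV.trans_le (hW t ht).2.2⟩
  have h1 := weak_l1 s e he hn T M hM hT lam hlam H
  have hM0 : (0 : ℝ) < M := by exact_mod_cast hM
  have h2 : ∀ W' ⊆ W, ∑ n ∈ s, ‖∑ t ∈ W', e n t‖ ≤
      84 * (3844 * M * lam) * Real.sqrt (W.card / M) := by
    intro W' hW'
    have hc' : W'.card ≤ W.card := Finset.card_le_card hW'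
    refine (l1_bound s e he hn M T hM (by nlinarith) (3844 * M * lam) ?_ W'
      (fun t ht => ⟨(hW t (hW' ht)).1, (hW t (hW' ht)).2.1⟩) (hc'.trans hc)).trans ?_
    · intro A hA W'' hW'' hc''
      refine (norm_sum_le _ _).trans (le_trans ?_ (h1 W'' hW'' hc''))
      exact Finset.sum_le_sum_of_subset_of_nonneg hA fun _ _ _ => norm_nonneg _
    · refine mul_le_mul_of_nonneg_left (Real.sqrt_le_sqrt ?_) (by positivity)
      have : (W'.card : ℝ) ≤ W.card := by exact_mod_cast hc'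
      gcongr
  have h3 := first_moment s e W _ h2 b hb
  have h4 : (W.card : ℝ) * V ≤ ∑ t ∈ W, ‖∑ n ∈ s, b n * e n t‖ := by
    have := Finset.card_nsmul_le_sum W (fun t => ‖∑ n ∈ s, b n * e n t‖) V (fun t ht => (hW t ht).2.2)
    simpa using this
  by_cases h0 : W.card = 0
  · rw [h0]
    simp only [Nat.cast_zero, zero_mul]
    positivity
  have hR : (0 : ℝ) < W.card := by
    have : 0 < W.card := by omega
    exact_mod_cast this
  have h5 : (W.card : ℝ) * V ≤ 1291584 * M * lam * Real.sqrt (W.card / M) := by linarith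
  have hV0 : 0 ≤ V := hlam.trans hV.le
  have h6 : ((W.card : ℝ) * V) ^ 2 ≤ (1291584 * M * lam * Real.sqrt (W.card / M)) ^ 2 :=
    pow_le_pow_left₀ (by positivity) h5 2
  rw [mul_pow (1291584 * (M : ℝ) * lam), Real.sq_sqrt (by positivity)] at h6
  have h7 : (1291584 * (M : ℝ) * lam) ^ 2 * ((W.card : ℝ) / M) =
      W.card * (1291584 ^ 2 * M * lam ^ 2) := by
    field_simp
  rw [h7, mul_pow, sq (W.card : ℝ), mul_assoc] at h6
  have h8 := le_of_mul_le_mul_left h6 hR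
  have h9 : (0 : ℝ) ≤ M * lam ^ 2 := by positivity
  nlinarith

end Pool.Agent.Q239.LV
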