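import Pool.Agent.Q239.LV.Blk

/-!
# Large values at `1`-separated real points from means over sets of integers
-/

set_option autoImplicit false

open Finset

namespace Pool.Agent.Q239.LV

lemma normSq_ker (l t : ℝ) : Complex.normSq (ker l t) = 1 := by
  rw [Complex.normSq_eq_norm_sq, norm_ker, one_pow]

/-- the logarithms on a dyadic block -/
lemma log_block {M n : ℕ} (hM : 1 ≤ M) (hn : n ∈ Ioc (M / 2) M) :
    |Real.log (n : ℝ) - Real.log (M : ℝ)| ≤ 1 := by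
  rw [Finset.mem_Ioc] at hn
  have hn0 : (0 : ℝ) < n := by
    have : 0 < n := by omega
    exact_mod_cast this
  have hM0 : (0 : ℝ) < M := by exact_mod_cast hM
  have h1 : Real.log (n : ℝ) ≤ Real.log M := Real.log_le_log hn0 (by exact_mod_cast hn.2)
  have h2 : Real.log (M : ℝ) ≤ Real.log n + Real.log 2 := by
    rw [← Real.log_mul hn0.ne' two_ne_zero]
    refine Real.log_le_log hM0 ?_
    have : M ≤ n * 2 := by omega
    exact_mod_cast this
  have h3 : Real.log 2 < 1 := Real.log_two_lt_d9.trans (by norm_num)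
  rw [abs_le]
  constructor <;> linarith

/-- from means over sets of integers, for all lengths, to real points -/
theorem means_real (N : ℕ) (hN : 1 ≤ N) (T Θ : ℝ) (hΘ : 0 ≤ Θ)
    (h : ∀ N' : ℕ, 1 ≤ N' → ∀ W : Finset ℤ, (∀ t ∈ W, 0 ≤ (t : ℝ) ∧ (t : ℝ) ≤ T) → W.card ≤ N' →
      ∑ n ∈ Icc 1 N', ‖∑ t ∈ W, ker (Real.log (n : ℝ)) (t : ℝ)‖ ≤ Θ * N' * Real.sqrt W.card)
    (S : Finset ℝ) (hS : ∀ t ∈ S, 0 ≤ t ∧ t ≤ T) (hsep : ∀ t ∈ S, ∀ u ∈ S, t ≠ u → 1 ≤ |t - u|)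
    (hc : S.card ≤ N) (a : ℕ → ℂ) (ha : ∀ n, ‖a n‖ ≤ 1) :
    ∑ t ∈ S, ‖∑ n ∈ Icc 1 N, a n * ker (Real.log (n : ℝ)) t‖ ≤ 384 * Θ * N * Real.sqrt S.card := by
  classical
  have hN0 : (0 : ℝ) < N := by exact_mod_cast hN
  set r : ℝ := Real.sqrt (1 / 2) with hr
  have hr0 : 0 ≤ r := Real.sqrt_nonneg _
  have hr2 : r ^ 2 = 1 / 2 := Real.sq_sqrt (by norm_num)
  have hr1 : r ≤ 3 / 4 := by
    refine abs_le_of_sq_le_sq' ?_ (by norm_num) |>.2
    rw [hr2]; norm_num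
  set R := Real.sqrt S.card with hR
  have hR0 : 0 ≤ R := Real.sqrt_nonneg _
  have hRN : R ≤ Real.sqrt N := Real.sqrt_le_sqrt (by exact_mod_cast hc)
  have hRR : R * R = S.card := Real.mul_self_sqrt (Nat.cast_nonneg _)
  -- one block
  have hblock : ∀ j : ℕ, ∀ u : ℝ → ℂ, (∀ p, ‖u p‖ ≤ 1) →
      ‖∑ t ∈ S, u t * ∑ n ∈ Ioc (N / 2 ^ (j + 1)) (N / 2 ^ j), a n * ker (Real.log (n : ℝ)) t‖ ≤
        96 * Θ * N * R * r ^ j := by
    intro j u hu
    set M := N / 2 ^ j with hM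
    have hM2 : N / 2 ^ (j + 1) = M / 2 := by
      rw [hM, Nat.div_div_eq_div_mul, pow_succ]
    rw [hM2]
    rcases Nat.eq_zero_or_pos M with h0 | hM1
    · rw [h0]
      simp only [Nat.zero_div, Finset.Ioc_self, Finset.sum_empty, mul_zero, Finset.sum_const_zero,
        norm_zero]
      positivity
    have hM0 : (0 : ℝ) < M := by exact_mod_cast hM1
    have hMN : (M : ℝ) ≤ N * (r ^ j) ^ 2 := by
      rw [← pow_mul, mul_comm j 2, pow_mul, hr2, one_div, inv_pow, ← div_eq_mul_inv,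
        le_div_iff₀ (by positivity)]
      have : M * 2 ^ j ≤ N := Nat.div_mul_le_self _ _
      exact_mod_cast this
    have hrj0 : 0 ≤ r ^ j := by positivity
    have hrj1 : r ^ j ≤ 1 := pow_le_one₀ hr0 (by linarith)
    have hsM : Real.sqrt M ≤ Real.sqrt N * r ^ j := by
      calc Real.sqrt M ≤ Real.sqrt (N * (r ^ j) ^ 2) := Real.sqrt_le_sqrt hMN
        _ = Real.sqrt N * r ^ j := by
            rw [Real.sqrt_mul (Nat.cast_nonneg _), Real.sqrt_sq hrj0]
    -- the bilinear bound for integral parts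
    have hinj : Set.InjOn (fun t : ℝ => ⌊t⌋) (S : Set ℝ) := by
      intro x hx y hy hxy
      by_contra hne
      have h3 := hsep x hx y hy hne
      exact absurd (Int.abs_sub_lt_one_of_floor_eq_floor hxy) (not_lt.2 h3)
    have hfl : ∀ t ∈ S, 0 ≤ ((⌊t⌋ : ℤ) : ℝ) ∧ ((⌊t⌋ : ℤ) : ℝ) ≤ T := by
      intro t ht
      have h3 := hS t ht
      exact ⟨by exact_mod_cast Int.floor_nonneg.2 h3.1, (Int.floor_le t).trans h3.2⟩
    have hset : ∀ P' ⊆ S, P'.card ≤ M → ∀ A ⊆ Ioc (M / 2) M,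
        ‖∑ n ∈ A, ∑ t ∈ P', ker (Real.log (n : ℝ)) ((⌊t⌋ : ℤ) : ℝ)‖ ≤ Θ * M * Real.sqrt P'.card := by
      intro P' hP' hcP A hA
      have h1 := h M hM1 (P'.image fun t => ⌊t⌋) (by
        intro t ht
        rw [Finset.mem_image] at ht
        obtain ⟨x, hx, rfl⟩ := ht
        exact hfl x (hP' hx)) (Finset.card_image_le.trans hcP)
      have hcard : (P'.image fun t => ⌊t⌋).card = P'.card :=
        Finset.card_image_of_injOn (hinj.mono (by exact_mod_cast hP'))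
      rw [hcard] at h1
      refine le_trans ?_ h1
      calc _ ≤ ∑ n ∈ A, ‖∑ t ∈ P', ker (Real.log (n : ℝ)) ((⌊t⌋ : ℤ) : ℝ)‖ := norm_sum_le _ _
        _ ≤ ∑ n ∈ Icc 1 M, ‖∑ t ∈ P', ker (Real.log (n : ℝ)) ((⌊t⌋ : ℤ) : ℝ)‖ :=
            Finset.sum_le_sum_of_subset_of_nonneg (fun n hn => by
              have := Finset.mem_Ioc.1 (hA hn)
              exact Finset.mem_Icc.2 ⟨by omega, this.2⟩) (fun _ _ _ => norm_nonneg _)
        _ = _ := by
            refine Finset.sum_congr rfl fun n _ => ?_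
            rw [Finset.sum_image (fun x hx y hy hxy => hinj (hP' hx) (hP' hy) hxy)]
    have hu' : ∀ (u' : ℝ → ℂ), (∀ p, ‖u' p‖ ≤ 1) →
        ∑ n ∈ Ioc (M / 2) M, ‖∑ t ∈ S, u' t * ker (Real.log (n : ℝ)) ((⌊t⌋ : ℤ) : ℝ)‖ ≤
          32 * Θ * N * R * r ^ j := by
      intro u' hu'
      have hsm : ∀ P' ⊆ S, P'.card ≤ M →
          ∑ n ∈ Ioc (M / 2) M, ‖∑ t ∈ P', u' t * ker (Real.log (n : ℝ)) ((⌊t⌋ : ℤ) : ℝ)‖ ≤
            16 * (Θ * M * Real.sqrt P'.card) := by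
        intro P' hP' hcP
        refine bil_le (Ioc (M / 2) M) P' (fun n t => ker (Real.log (n : ℝ)) ((⌊t⌋ : ℤ) : ℝ)) _ ?_ u' hu'
        intro A hA P'' hP''
        refine (hset P'' (hP''.trans hP') ((Finset.card_le_card hP'').trans hcP) A hA).trans ?_
        refine mul_le_mul_of_nonneg_left (Real.sqrt_le_sqrt ?_) (by positivity)
        exact_mod_cast Finset.card_le_card hP''
      by_cases hcM : S.card ≤ M
      · refine (hsm S subset_rfl hcM).trans ?_
        calc 16 * (Θ * M * R) ≤ 16 * (Θ * (N * (r ^ j) ^ 2) * R) := by gcongr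
          _ = 16 * Θ * N * R * r ^ j * r ^ j := by ring
          _ ≤ 16 * Θ * N * R * r ^ j * 1 := by gcongr
          _ ≤ 32 * Θ * N * R * r ^ j := by
              have : 0 ≤ Θ * N * R * r ^ j := by positivity
              linarith
      · push Not at hcM
        have h2 := any_size (Ioc (M / 2) M)
          (fun (n : ℕ) (t : ℝ) => u' t * ker (Real.log (n : ℝ)) ((⌊t⌋ : ℤ) : ℝ)) M hM1
          (16 * (Θ * M * Real.sqrt M)) S.card S rfl (fun P' hP' hcP => (hsm P' hP' hcP).trans (by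
            have : Real.sqrt P'.card ≤ Real.sqrt M := Real.sqrt_le_sqrt (by exact_mod_cast hcP)
            gcongr))
        refine h2.trans ?_
        have h3 : (M : ℝ) * (1 + S.card / M) ≤ 2 * (R * R) := by
          rw [hRR, mul_add, mul_one, mul_div_cancel₀ _ hM0.ne']
          have : (M : ℝ) ≤ S.card := by exact_mod_cast hcM.le
          linarith
        calc 16 * (Θ * M * Real.sqrt M) * (1 + S.card / M) =
              16 * Θ * Real.sqrt M * (M * (1 + S.card / M)) := by ring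
          _ ≤ 16 * Θ * Real.sqrt M * (2 * (R * R)) := by gcongr
          _ ≤ 16 * Θ * (Real.sqrt N * r ^ j) * (2 * (Real.sqrt N * R)) := by gcongr
          _ = 32 * Θ * (Real.sqrt N * Real.sqrt N) * R * r ^ j := by ring
          _ = 32 * Θ * N * R * r ^ j := by rw [Real.mul_self_sqrt hN0.le]
    have h1 := block_real (Ioc (M / 2) M) (fun n : ℕ => Real.log (n : ℝ)) (Real.log (M : ℝ)) 1
      (fun n hn => log_block hM1 hn) zero_le_one S (32 * Θ * N * R * r ^ j) (by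
        intro a' u' ha' hu''
        refine le_trans ?_ (hu' u' hu'')
        calc ‖∑ t ∈ S, u' t * ∑ n ∈ Ioc (M / 2) M, a' n * ker (Real.log (n : ℝ)) ((⌊t⌋ : ℤ) : ℝ)‖ =
              ‖∑ n ∈ Ioc (M / 2) M, a' n * ∑ t ∈ S, u' t * ker (Real.log (n : ℝ)) ((⌊t⌋ : ℤ) : ℝ)‖ := by
              congr 1
              simp_rw [Finset.mul_sum]
              rw [Finset.sum_comm]
              refine Finset.sum_congr rfl fun n _ => Finset.sum_congr rfl fun t _ => ?_
              ring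
          _ ≤ _ := by
              refine (norm_sum_le _ _).trans (Finset.sum_le_sum fun n hn => ?_)
              rw [norm_mul]
              exact mul_le_of_le_one_left (norm_nonneg _) (ha' n)) a u ha hu
    refine h1.trans (le_of_eq ?_)
    ring
  -- all blocks
  refine sum_norm_poly_le (Icc 1 N) S (fun n t => a n * ker (Real.log (n : ℝ)) t) _ fun u hu => ?_
  have h0 : N / 2 ^ N = 0 := Nat.div_eq_of_lt Nat.lt_two_pow_self
  have h1 : ∀ t : ℝ, ∑ n ∈ Icc 1 N, a n * ker (Real.log (n : ℝ)) t =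
      ∑ j ∈ range N, ∑ n ∈ Ioc (N / 2 ^ (j + 1)) (N / 2 ^ j), a n * ker (Real.log (n : ℝ)) t := by
    intro t
    rw [sum_blocks, h0]
    rfl
  calc ‖∑ t ∈ S, u t * ∑ n ∈ Icc 1 N, a n * ker (Real.log (n : ℝ)) t‖ =
        ‖∑ j ∈ range N, ∑ t ∈ S, u t *
          ∑ n ∈ Ioc (N / 2 ^ (j + 1)) (N / 2 ^ j), a n * ker (Real.log (n : ℝ)) t‖ := by
        congr 1
        rw [Finset.sum_comm]
        refine Finset.sum_congr rfl fun t _ => ?_
        rw [h1, Finset.mul_sum]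
    _ ≤ ∑ j ∈ range N, 96 * Θ * N * R * r ^ j :=
        (norm_sum_le _ _).trans (Finset.sum_le_sum fun j _ => hblock j u hu)
    _ = 96 * Θ * N * R * ∑ j ∈ range N, r ^ j := by rw [Finset.mul_sum]
    _ ≤ 96 * Θ * N * R * 4 := by
        refine mul_le_mul_of_nonneg_left ?_ (by positivity)
        have h2 : r ≠ 1 := by linarith
        have h3 : ∑ j ∈ range N, r ^ j = (1 - r ^ N) / (1 - r) := by
          rw [geom_sum_eq h2, ← neg_div_neg_eq]
          ring_nf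
        rw [h3, div_le_iff₀ (by linarith)]
        have : 0 ≤ r ^ N := by positivity
        linarith
    _ = 384 * Θ * N * R := by ring

/-- `n^{-it}` is the conjugate of the kernel -/
lemma cpow_eq (n : ℕ) (hn : 1 ≤ n) (t : ℝ) :
    (n : ℂ) ^ (-((t : ℂ) * Complex.I)) = (starRingEnd ℂ) (ker (Real.log (n : ℝ)) t) := by
  have hn0 : (n : ℂ) ≠ 0 := by exact_mod_cast (by omega : n ≠ 0)
  rw [Complex.cpow_def_of_ne_zero hn0, ← Complex.natCast_log]
  unfold ker
  rw [← Complex.exp_conj, map_mul, Complex.conj_ofReal, Complex.conj_I]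
  congr 1
  push_cast
  ring

/-- the polynomial in `n^{-it}` and the polynomial in the kernel -/
lemma norm_poly_eq (N : ℕ) (a : ℕ → ℂ) (t : ℝ) :
    ‖∑ n ∈ Icc 1 N, a n * (n : ℂ) ^ (-((t : ℂ) * Complex.I))‖ =
      ‖∑ n ∈ Icc 1 N, (starRingEnd ℂ) (a n) * ker (Real.log (n : ℝ)) t‖ := by
  rw [← Complex.norm_conj, map_sum]
  congr 1
  refine Finset.sum_congr rfl fun n hn => ?_
  rw [map_mul, cpow_eq n (Finset.mem_Icc.1 hn).1, Complex.conj_conj]

/-- the number of `1`-separated points in `[0,T]` -/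
lemma card_le_of_sep (T : ℝ) (hT : 1 ≤ T) (S : Finset ℝ) (hS : ∀ t ∈ S, 0 ≤ t ∧ t ≤ T)
    (hsep : ∀ t ∈ S, ∀ u ∈ S, t ≠ u → 1 ≤ |t - u|) : (S.card : ℝ) ≤ 2 * T := by
  classical
  have hinj : Set.InjOn (fun t : ℝ => ⌊t⌋₊) (S : Set ℝ) := by
    intro x hx y hy hxy
    by_contra hne
    have h3 := hsep x hx y hy hne
    have hx0 := (hS x hx).1
    have hy0 := (hS y hy).1
    have h1 := Nat.floor_le hx0
    have h2 := Nat.lt_floor_add_one x
    have h4 := Nat.floor_le hy0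
    have h5 := Nat.lt_floor_add_one y
    dsimp only at hxy
    rw [hxy] at h1 h2
    have h6 : |x - y| < 1 := by
      rw [abs_lt]
      constructor <;> linarith
    linarith
  have h1 : S.card ≤ (range (⌊T⌋₊ + 1)).card := by
    refine Finset.card_le_card_of_injOn (fun t : ℝ => ⌊t⌋₊) ?_ hinj
    intro t ht
    rw [Finset.mem_coe, Finset.mem_range]
    have : ⌊t⌋₊ ≤ ⌊T⌋₊ := Nat.floor_le_floor (hS t ht).2
    dsimp only
    omega
  rw [Finset.card_range] at h1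
  have h2 : (S.card : ℝ) ≤ ⌊T⌋₊ + 1 := by exact_mod_cast h1
  have h3 := Nat.floor_le (by linarith : 0 ≤ T)
  linarith

/-- **large values at `1`-separated real points from means over sets of integers** -/
theorem large_of_means
    (H : ∀ ε : ℝ, 0 < ε → ∃ C : ℝ, 0 < C ∧ ∀ (N : ℕ) (T : ℝ) (W : Finset ℤ), 1 ≤ N → 1 ≤ T →
      (∀ t ∈ W, 0 ≤ (t : ℝ) ∧ (t : ℝ) ≤ T) → W.card ≤ N →
      ∑ n ∈ Icc 1 N, ‖∑ t ∈ W, ker (Real.log (n : ℝ)) (t : ℝ)‖ ≤
        C * N * T ^ ε * Real.sqrt W.card) :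
    ∀ ε : ℝ, 0 < ε → ∃ C : ℝ, 0 < C ∧
      ∀ (N : ℕ) (T V : ℝ) (a : ℕ → ℂ) (S : Finset ℝ),
        1 ≤ N → 1 ≤ T → 0 < V →
        (∀ n, ‖a n‖ ≤ 1) →
        (N : ℝ) * T ^ ε ≤ V ^ 2 →
        (∀ t ∈ S, 0 ≤ t ∧ t ≤ T ∧
          V ≤ ‖∑ n ∈ Finset.Icc 1 N, a n * (n : ℂ) ^ (-((t : ℂ) * Complex.I))‖) →
        (∀ t ∈ S, ∀ u ∈ S, t ≠ u → 1 ≤ |t - u|) →
        (S.card : ℝ) ≤ C * (N : ℝ) ^ 2 / V ^ 2 * T ^ ε := by
  intro ε hε
  obtain ⟨C, hC, h⟩ := H (ε / 4) (by positivity)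
  set X := (384 * C) ^ 2 with hX
  have hX0 : 0 < X := by positivity
  refine ⟨X + 2 * X ^ (2 / ε), by positivity, ?_⟩
  intro N T V a S hN hT hV ha hVT hS hsep
  have hN1 : (1 : ℝ) ≤ N := by exact_mod_cast hN
  have hN0 : (0 : ℝ) < N := by linarith
  have hT0 : 0 < T := by linarith
  have hTε : 1 ≤ T ^ ε := Real.one_le_rpow hT hε.le
  have hTh : T ^ (ε / 4) * T ^ (ε / 4) = T ^ (ε / 2) := by
    rw [← Real.rpow_add hT0]; congr 1; ring
  have hThh : T ^ (ε / 2) * T ^ (ε / 2) = T ^ ε := by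
    rw [← Real.rpow_add hT0]; congr 1; ring
  have hTh0 : 0 < T ^ (ε / 2) := by positivity
  have hThle : T ^ (ε / 2) ≤ T ^ ε := Real.rpow_le_rpow_of_exponent_le hT (by linarith)
  have hmain : ∀ S' ⊆ S, S'.card ≤ N → (S'.card : ℝ) * V ^ 2 ≤ X * (N : ℝ) ^ 2 * T ^ (ε / 2) := by
    intro S' hS' hc
    have h1 := means_real N hN T (C * T ^ (ε / 4)) (by positivity) (fun N' hN' W hW hcW => by
      refine (h N' T W hN' hT hW hcW).trans (le_of_eq ?_)
      ring) S' (fun t ht => ⟨(hS t (hS' ht)).1, (hS t (hS' ht)).2.1⟩)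
      (fun t ht u hu => hsep t (hS' ht) u (hS' hu)) hc (fun n => (starRingEnd ℂ) (a n))
      (fun n => by rw [Complex.norm_conj]; exact ha n)
    have h2 : (S'.card : ℝ) * V ≤
        ∑ t ∈ S', ‖∑ n ∈ Icc 1 N, (starRingEnd ℂ) (a n) * ker (Real.log (n : ℝ)) t‖ := by
      have := Finset.card_nsmul_le_sum S'
        (fun t => ‖∑ n ∈ Icc 1 N, (starRingEnd ℂ) (a n) * ker (Real.log (n : ℝ)) t‖) V
        (fun t ht => by
          rw [← norm_poly_eq]
          exact (hS t (hS' ht)).2.2)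
      simpa using this
    by_cases h0 : S'.card = 0
    · rw [h0]
      simp only [Nat.cast_zero, zero_mul]
      positivity
    have hR : (0 : ℝ) < S'.card := by
      have : 0 < S'.card := by omega
      exact_mod_cast this
    have h3 : ((S'.card : ℝ) * V) ^ 2 ≤ (384 * (C * T ^ (ε / 4)) * N * Real.sqrt S'.card) ^ 2 :=
      pow_le_pow_left₀ (by positivity) (h2.trans h1) 2
    rw [mul_pow (384 * (C * T ^ (ε / 4)) * (N : ℝ)), Real.sq_sqrt hR.le] at h3
    have h4 : (S'.card : ℝ) * ((S'.card : ℝ) * V ^ 2) ≤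
        S'.card * (X * (N : ℝ) ^ 2 * T ^ (ε / 2)) := by
      rw [← hTh]
      calc _ = ((S'.card : ℝ) * V) ^ 2 := by ring
        _ ≤ _ := h3
        _ = _ := by rw [hX]; ring
    exact le_of_mul_le_mul_left h4 hR
  by_cases hcase : S.card ≤ N
  · have h1 := hmain S subset_rfl hcase
    have h2 : (S.card : ℝ) ≤ X * (N : ℝ) ^ 2 / V ^ 2 * T ^ (ε / 2) := by
      rw [div_mul_eq_mul_div, le_div_iff₀ (by positivity)]
      exact h1
    calc (S.card : ℝ) ≤ X * (N : ℝ) ^ 2 / V ^ 2 * T ^ (ε / 2) := h2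
      _ ≤ (X + 2 * X ^ (2 / ε)) * (N : ℝ) ^ 2 / V ^ 2 * T ^ ε := by
          have : (0 : ℝ) ≤ 2 * X ^ (2 / ε) := by positivity
          gcongr
          linarith
  · push Not at hcase
    obtain ⟨S', hS', hc'⟩ := Finset.exists_subset_card_eq hcase.le
    have h1 := hmain S' hS' hc'.le
    rw [hc'] at h1
    have h2 : T ^ (ε / 2) ≤ X := by
      have h3 : (N : ℝ) * (N * T ^ ε) ≤ N * V ^ 2 := mul_le_mul_of_nonneg_left hVT hN0.le
      have h4 : T ^ (ε / 2) * ((N : ℝ) ^ 2 * T ^ (ε / 2)) ≤ X * ((N : ℝ) ^ 2 * T ^ (ε / 2)) := by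
        calc _ = (N : ℝ) * (N * T ^ ε) := by rw [← hThh]; ring
          _ ≤ _ := h3
          _ ≤ _ := h1
          _ = _ := by ring
      exact le_of_mul_le_mul_right h4 (by positivity)
    have h3 : T ≤ X ^ (2 / ε) := by
      calc T = (T ^ (ε / 2)) ^ (2 / ε) := by
            rw [← Real.rpow_mul hT0.le]
            have : ε / 2 * (2 / ε) = 1 := by field_simp
            rw [this, Real.rpow_one]
        _ ≤ X ^ (2 / ε) := Real.rpow_le_rpow hTh0.le h2 (by positivity)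
    have h4 := card_le_of_sep T hT S (fun t ht => ⟨(hS t ht).1, (hS t ht).2.1⟩) hsep
    have hVN : V ≤ N := by
      have hne : S.Nonempty := Finset.card_pos.1 (by omega)
      obtain ⟨t, ht⟩ := hne
      refine (hS t ht).2.2.trans ?_
      rw [norm_poly_eq]
      refine (norm_sum_le _ _).trans ?_
      calc ∑ n ∈ Icc 1 N, ‖(starRingEnd ℂ) (a n) * ker (Real.log (n : ℝ)) t‖ ≤
            ∑ _n ∈ Icc 1 N, (1 : ℝ) := by
            refine Finset.sum_le_sum fun n _ => ?_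
            rw [norm_mul, norm_ker, mul_one, Complex.norm_conj]
            exact ha n
        _ = N := by rw [Finset.sum_const, Nat.card_Icc]; simp
    have h5 : 1 ≤ (N : ℝ) ^ 2 / V ^ 2 := by
      rw [one_le_div (by positivity)]
      exact pow_le_pow_left₀ hV.le hVN 2
    have h6 : 1 ≤ (N : ℝ) ^ 2 / V ^ 2 * T ^ ε := one_le_mul_of_one_le_of_one_le h5 hTε
    have h7 : (0 : ℝ) < 2 * X ^ (2 / ε) := by positivity
    calc (S.card : ℝ) ≤ 2 * X ^ (2 / ε) := by linarith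
      _ ≤ (X + 2 * X ^ (2 / ε)) * ((N : ℝ) ^ 2 / V ^ 2 * T ^ ε) := by nlinarith
      _ = (X + 2 * X ^ (2 / ε)) * (N : ℝ) ^ 2 / V ^ 2 * T ^ ε := by ring

end Pool.Agent.Q239.LV
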